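import Pool.Agent.Work.MP_567c26_al.V2.Reg

/-!
# Regular languages as finite data
-/

set_option linter.unusedVariables false
set_option linter.style.haveILetI false

namespace Pool.Agent.Work.MP_567c26_al.V2

theorem exists_numbering (ι : Type) [Finite ι] : ∃ N : ι → ℕ, Function.Injective N := by
  obtain ⟨n, ⟨e⟩⟩ := Finite.exists_equiv_fin ι
  exact ⟨fun i => (e i).val, fun i j h => e.injective (Fin.ext h)⟩

theorem exists_aut2 {P ι : Type} [Finite P] [Finite ι] (st : ι → P → ι) (i0 : ι) (acc : Set ι)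
    (l1 l2 : P → List ℕ) : ∃ M : Aut2, ∀ u v, Acc2 M u v ↔
      ∃ w : List P, w.foldl st i0 ∈ acc ∧ u = w.flatMap l1 ∧ v = w.flatMap l2 := by
  classical
  obtain ⟨N, hN⟩ := exists_numbering ι
  haveI := Fintype.ofFinite ι
  haveI := Fintype.ofFinite P
  let T : List (ℕ × (List ℕ × List ℕ) × ℕ) := (Finset.univ : Finset (ι × P)).toList.map
    fun x => (N x.1, (l1 x.2, l2 x.2), N (st x.1 x.2))
  have memT : ∀ p x y q, (p, (x, y), q) ∈ T ↔
      ∃ i a, p = N i ∧ x = l1 a ∧ y = l2 a ∧ q = N (st i a) := by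
    intro p x y q
    constructor
    · intro h
      obtain ⟨⟨i, a⟩, _, e⟩ := List.mem_map.1 h
      injection e with e1 e2
      injection e2 with e2 e3
      injection e2 with e4 e5
      exact ⟨i, a, e1.symm, e4.symm, e5.symm, e3.symm⟩
    · rintro ⟨i, a, rfl, rfl, rfl, rfl⟩
      exact List.mem_map.2 ⟨(i, a), by simp, rfl⟩
  have h1 : ∀ p u v q, Path2 T p u v q → ∀ i, p = N i →
      ∃ w : List P, q = N (w.foldl st i) ∧ u = w.flatMap l1 ∧ v = w.flatMap l2 := by
    intro p u v q h
    induction h with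
    | nil p =>
      rintro i rfl
      exact ⟨[], rfl, rfl, rfl⟩
    | @cons p q r x y u v hT _ ih =>
      rintro i rfl
      obtain ⟨i', a, e, rfl, rfl, rfl⟩ := (memT _ _ _ _).1 hT
      have := hN e
      subst this
      obtain ⟨w, e1, e2, e3⟩ := ih _ rfl
      exact ⟨a :: w, e1, by rw [e2]; rfl, by rw [e3]; rfl⟩
  have h2 : ∀ (w : List P) (i : ι), Path2 T (N i) (w.flatMap l1) (w.flatMap l2)
      (N (w.foldl st i)) := by
    intro w
    induction w with
    | nil => intro i; exact Path2.nil _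
    | cons a w ih =>
      intro i
      rw [List.flatMap_cons, List.flatMap_cons, List.foldl_cons]
      exact Path2.cons ((memT _ _ _ _).2 ⟨i, a, rfl, rfl, rfl, rfl⟩) (ih _)
  refine ⟨([N i0], (Finset.univ.filter (· ∈ acc)).toList.map N, T), fun u v => ?_⟩
  constructor
  · rintro ⟨p, hp, q, hq, hpath⟩
    have hp' : p = N i0 := by simpa using hp
    obtain ⟨w, e1, e2, e3⟩ := h1 p u v q hpath i0 hp'
    obtain ⟨j, hj, ej⟩ := List.mem_map.1 hq
    refine ⟨w, ?_, e2, e3⟩
    rw [e1] at ej
    rw [← hN ej]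
    simpa using hj
  · rintro ⟨w, hw, rfl, rfl⟩
    exact ⟨N i0, by simp, N (w.foldl st i0), List.mem_map.2 ⟨_, by simpa using hw, rfl⟩, h2 w i0⟩

theorem exists_aut1 {P ι : Type} [Finite P] [Finite ι] (st : ι → P → ι) (i0 : ι) (acc : Set ι)
    (l : P → ℕ) : ∃ M : Aut1, ∀ u, Acc1 M u ↔
      ∃ w : List P, w.foldl st i0 ∈ acc ∧ u = w.map l := by
  classical
  obtain ⟨N, hN⟩ := exists_numbering ι
  haveI := Fintype.ofFinite ι
  haveI := Fintype.ofFinite P
  let T : List (ℕ × ℕ × ℕ) := (Finset.univ : Finset (ι × P)).toList.map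
    fun x => (N x.1, l x.2, N (st x.1 x.2))
  have memT : ∀ p x q, (p, x, q) ∈ T ↔
      ∃ i a, p = N i ∧ x = l a ∧ q = N (st i a) := by
    intro p x q
    constructor
    · intro h
      obtain ⟨⟨i, a⟩, _, e⟩ := List.mem_map.1 h
      injection e with e1 e2
      injection e2 with e2 e3
      exact ⟨i, a, e1.symm, e2.symm, e3.symm⟩
    · rintro ⟨i, a, rfl, rfl, rfl⟩
      exact List.mem_map.2 ⟨(i, a), by simp, rfl⟩
  have h1 : ∀ p u q, Path1 T p u q → ∀ i, p = N i →
      ∃ w : List P, q = N (w.foldl st i) ∧ u = w.map l := by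
    intro p u q h
    induction h with
    | nil p =>
      rintro i rfl
      exact ⟨[], rfl, rfl⟩
    | @cons p q r x u hT _ ih =>
      rintro i rfl
      obtain ⟨i', a, e, rfl, rfl⟩ := (memT _ _ _).1 hT
      have := hN e
      subst this
      obtain ⟨w, e1, e2⟩ := ih _ rfl
      exact ⟨a :: w, e1, by rw [e2]; rfl⟩
  have h2 : ∀ (w : List P) (i : ι), Path1 T (N i) (w.map l) (N (w.foldl st i)) := by
    intro w
    induction w with
    | nil => intro i; exact Path1.nil _
    | cons a w ih =>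
      intro i
      exact Path1.cons ((memT _ _ _).2 ⟨i, a, rfl, rfl, rfl⟩) (ih _)
  refine ⟨([N i0], (Finset.univ.filter (· ∈ acc)).toList.map N, T), fun u => ?_⟩
  constructor
  · rintro ⟨p, hp, q, hq, hpath⟩
    have hp' : p = N i0 := by simpa using hp
    obtain ⟨w, e1, e2⟩ := h1 p u q hpath i0 hp'
    obtain ⟨j, hj, ej⟩ := List.mem_map.1 hq
    refine ⟨w, ?_, e2⟩
    rw [e1] at ej
    rw [← hN ej]
    simpa using hj
  · rintro ⟨w, hw, rfl⟩
    exact ⟨N i0, by simp, N (w.foldl st i0), List.mem_map.2 ⟨_, by simpa using hw, rfl⟩, h2 w i0⟩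

/-- A regular language as finite data. -/
theorem aut1_of_regular {B : Type} [Finite B] (num : B → ℕ) {L : Language B} (hL : L.IsRegular) :
    ∃ M : Aut1, ∀ u, Acc1 M u ↔ ∃ w ∈ L, u = w.map num := by
  obtain ⟨ι, _, st, i0, acc, h⟩ := exists_dfa hL
  obtain ⟨M, hM⟩ := exists_aut1 st i0 acc num
  refine ⟨M, fun u => (hM u).trans ?_⟩
  simp only [h]

theorem flatMap_fst {B : Type} (num : B → ℕ) (u v : List B) :
    (pad u v).flatMap (fun p => p.1.toList.map num) = u.map num := by
  induction u generalizing v with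
  | nil =>
    rw [pad_nil_left]
    induction v with
    | nil => rfl
    | cons b v ih => rw [List.map_cons, List.flatMap_cons, ih]; rfl
  | cons a u ih =>
    cases v with
    | nil => rw [pad_cons_nil, List.flatMap_cons, ih]; rfl
    | cons b v => rw [pad_cons_cons, List.flatMap_cons, ih]; rfl

theorem flatMap_snd {B : Type} (num : B → ℕ) (u v : List B) :
    (pad u v).flatMap (fun p => p.2.toList.map num) = v.map num := by
  induction u generalizing v with
  | nil =>
    rw [pad_nil_left]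
    induction v with
    | nil => rfl
    | cons b v ih => rw [List.map_cons, List.flatMap_cons, ih]; rfl
  | cons a u ih =>
    cases v with
    | nil => rw [pad_cons_nil, List.flatMap_cons, ih]; rfl
    | cons b v => rw [pad_cons_cons, List.flatMap_cons, ih]; rfl

/-- A regular language of padded words as finite data. -/
theorem aut2_of_regular {B : Type} [Finite B] (num : B → ℕ)
    {R : Language (Option B × Option B)} (hR : R.IsRegular) (hp : ∀ w ∈ R, ∃ u v, w = pad u v) :
    ∃ M : Aut2, ∀ u v, Acc2 M u v ↔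
      ∃ u' v', pad u' v' ∈ R ∧ u = u'.map num ∧ v = v'.map num := by
  obtain ⟨ι, _, st, i0, acc, h⟩ := exists_dfa hR
  obtain ⟨M, hM⟩ := exists_aut2 st i0 acc (fun p => p.1.toList.map num)
    (fun p => p.2.toList.map num)
  refine ⟨M, fun u v => (hM u v).trans ?_⟩
  constructor
  · rintro ⟨w, hw, rfl, rfl⟩
    obtain ⟨u', v', rfl⟩ := hp w ((h w).2 hw)
    exact ⟨u', v', (h _).2 hw, flatMap_fst num u' v', flatMap_snd num u' v'⟩
  · rintro ⟨u', v', hw, rfl, rfl⟩
    exact ⟨pad u' v', (h _).1 hw, (flatMap_fst num u' v').symm, (flatMap_snd num u' v').symm⟩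

/-- The union of `M` with the relation `(a,b) (c,d)^*`. -/
def un (M : Aut2) (a b c d : List ℕ) : Aut2 :=
  (0 :: M.1.map (· + 2), 1 :: M.2.1.map (· + 2),
    (0, (a, b), 1) :: (1, (c, d), 1) :: M.2.2.map fun t => (t.1 + 2, t.2.1, t.2.2 + 2))

theorem acc_un (M : Aut2) (a b c d u v : List ℕ) : Acc2 (un M a b c d) u v ↔
    Acc2 M u v ∨ ∃ k, u = a ++ (List.replicate k c).flatten ∧
      v = b ++ (List.replicate k d).flatten := by
  have h1 : ∀ p u v q, Path2 (un M a b c d).2.2 p u v q →
      (∀ p', p = p' + 2 → ∃ q', q = q' + 2 ∧ Path2 M.2.2 p' u v q') ∧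
      (p = 1 → q = 1 ∧ ∃ k, u = (List.replicate k c).flatten ∧ v = (List.replicate k d).flatten) ∧
      (p = 0 → q = 0 ∨ (q = 1 ∧ ∃ k, u = a ++ (List.replicate k c).flatten ∧
        v = b ++ (List.replicate k d).flatten)) := by
    intro p u v q h
    induction h with
    | nil p =>
      refine ⟨?_, ?_, ?_⟩
      · rintro p' rfl
        exact ⟨p', rfl, Path2.nil _⟩
      · rintro rfl
        exact ⟨rfl, 0, rfl, rfl⟩
      · rintro rfl
        exact Or.inl rfl
    | @cons p q r x y u v hT _ ih =>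
      have hT' : (p, (x, y), q) = (0, (a, b), 1) ∨ (p, (x, y), q) = (1, (c, d), 1) ∨
          ∃ t ∈ M.2.2, (t.1 + 2, t.2.1, t.2.2 + 2) = (p, (x, y), q) := by
        have : (p, (x, y), q) ∈ (0, (a, b), 1) :: (1, (c, d), 1) :: M.2.2.map
          fun t => (t.1 + 2, t.2.1, t.2.2 + 2) := hT
        rcases List.mem_cons.1 this with h | h
        · exact Or.inl h
        · rcases List.mem_cons.1 h with h | h
          · exact Or.inr (Or.inl h)
          · exact Or.inr (Or.inr (List.mem_map.1 h))
      rcases hT' with e | e | ⟨⟨p0, xy, q0⟩, ht, e⟩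
      · simp only [Prod.mk.injEq] at e
        obtain ⟨rfl, ⟨rfl, rfl⟩, rfl⟩ := e
        refine ⟨fun p' h => absurd h (by omega), fun h => absurd h (by omega), fun _ => ?_⟩
        obtain ⟨e1, k, e2, e3⟩ := ih.2.1 rfl
        exact Or.inr ⟨e1, k, by rw [e2], by rw [e3]⟩
      · simp only [Prod.mk.injEq] at e
        obtain ⟨rfl, ⟨rfl, rfl⟩, rfl⟩ := e
        refine ⟨fun p' h => absurd h (by omega), fun _ => ?_, fun h => absurd h (by omega)⟩
        obtain ⟨e1, k, e2, e3⟩ := ih.2.1 rfl
        exact ⟨e1, k + 1, by rw [e2, List.replicate_succ, List.flatten_cons],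
          by rw [e3, List.replicate_succ, List.flatten_cons]⟩
      · simp only [Prod.mk.injEq] at e
        obtain ⟨rfl, rfl, rfl⟩ := e
        refine ⟨fun p' h => ?_, fun h => absurd h (by omega), fun h => absurd h (by omega)⟩
        obtain ⟨q', e1, e2⟩ := ih.1 q0 rfl
        have : p' = p0 := by omega
        subst this
        exact ⟨q', e1, Path2.cons ht e2⟩
  have h2 : ∀ p u v q, Path2 M.2.2 p u v q →
      Path2 (un M a b c d).2.2 (p + 2) u v (q + 2) := by
    intro p u v q h
    induction h with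
    | nil p => exact Path2.nil _
    | @cons p q r x y u v hT _ ih =>
      refine Path2.cons ?_ ih
      exact List.mem_cons_of_mem _ (List.mem_cons_of_mem _
        (List.mem_map.2 ⟨(p, (x, y), q), hT, rfl⟩))
  have h3 : ∀ k, Path2 (un M a b c d).2.2 1 (List.replicate k c).flatten
      (List.replicate k d).flatten 1 := by
    intro k
    induction k with
    | zero => exact Path2.nil _
    | succ k ih =>
      rw [List.replicate_succ, List.replicate_succ, List.flatten_cons, List.flatten_cons]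
      exact Path2.cons (List.mem_cons_of_mem _ List.mem_cons_self) ih
  constructor
  · rintro ⟨p, hp, q, hq, hpath⟩
    have hp' : p ∈ 0 :: M.1.map (· + 2) := hp
    have hq' : q ∈ 1 :: M.2.1.map (· + 2) := hq
    obtain ⟨g1, g2, g3⟩ := h1 p u v q hpath
    rcases List.mem_cons.1 hp' with rfl | hp'
    · rcases g3 rfl with rfl | ⟨rfl, h⟩
      · exfalso
        rcases List.mem_cons.1 hq' with h | h
        · exact absurd h (by omega)
        · obtain ⟨q', _, e⟩ := List.mem_map.1 h
          exact absurd e (by omega)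
      · exact Or.inr h
    · obtain ⟨p', hp'', rfl⟩ := List.mem_map.1 hp'
      obtain ⟨q', e, hpq⟩ := g1 p' rfl
      left
      refine ⟨p', hp'', q', ?_, hpq⟩
      rcases List.mem_cons.1 hq' with h | h
      · exact absurd h (by omega)
      · obtain ⟨q'', hq'', e'⟩ := List.mem_map.1 h
        have : q'' = q' := by
          have : q'' + 2 = q := e'
          omega
        rwa [← this]
  · rintro (⟨p, hp, q, hq, hpath⟩ | ⟨k, rfl, rfl⟩)
    · exact ⟨p + 2, List.mem_cons_of_mem _ (List.mem_map.2 ⟨p, hp, rfl⟩), q + 2,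
        List.mem_cons_of_mem _ (List.mem_map.2 ⟨q, hq, rfl⟩), h2 _ _ _ _ hpath⟩
    · exact ⟨0, List.mem_cons_self, 1, List.mem_cons_self,
        Path2.cons List.mem_cons_self (h3 k)⟩

end Pool.Agent.Work.MP_567c26_al.V2
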