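import Pool.Agent.Work.MP_567c26_al.V2.Sem

/-!
# Interface of the second version: the statements of the blocks and the assembly
-/

namespace Pool.Agent.Work.MP_567c26_al.V2

open MP_567c26_al_helper68

/-- Block BAD. -/
def Stmt_BAD : Prop := ∀ (K : Type) [Fintype K] (f : List K → Option (List K))
  (H : List K → Prop) (x0 : List K) (i : ℕ) (x : List K), iter f i x0 = some x → H x →
    ¬ SyncAutomatic (Sg f H x0)

/-- `W` is closed under the steps, forwards and backwards. -/
def Closed {K : Type} (f : List K → Option (List K)) (W : List K → Prop) : Prop :=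
  ∀ x y, f x = some y → (W x ↔ W y)

/-- Block REL: regularity of the languages of the normal forms, for a finite closed set `W`
without elements of `H` (the case of the letter `d` needs `x0 ∈ W`). -/
def Stmt_REL : Prop := ∀ (K : Type) [Fintype K] (bl : K) (phi : K → K → K → K)
  (halt bad : K → Bool) (x0 : List K) (W : List K → Prop),
  {x | W x}.Finite → Closed (stepH bl phi halt) W → (∀ x, Hbad bad x → ¬ W x) →
    (Lw W).IsRegular ∧ (eqLang (gl (stepH bl phi halt) (Hbad bad) x0) (Lw W)).IsRegular ∧
    ∀ b, (b ≠ some .d ∨ W x0) →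
      (mulLang (gl (stepH bl phi halt) (Hbad bad) x0) (Lw W) b).IsRegular

/-- Block GOOD: the automatic case (the finite set `W` is the set of the words whose orbit passes
through `x`). -/
def Stmt_GOOD : Prop := ∀ (K : Type) [Fintype K] (bl : K) (phi : K → K → K → K)
  (halt bad : K → Bool) (x0 : List K) (i : ℕ) (x : List K), (∀ s, bad s = true → halt s = true) →
    iter (stepH bl phi halt) i x0 = some x → stepH bl phi halt x = none → ¬ Hbad bad x →
      SyncAutomatic (Sg (stepH bl phi halt) (Hbad bad) x0)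

/-- Block STR: quasi-automatic structures, computable in the input. -/
def Stmt_STR : Prop := ∀ (K : Type) [Fintype K] (bl : K) (phi : K → K → K → K)
  (halt bad : K → Bool) (cX cY cW : K), ∃ I : ℕ → Input, Computable I ∧
    ∀ n, ∃ g, IsStructure (I n) (Sg (stepH bl phi halt) (Hbad bad) (start cX cY cW n)) g

theorem iter_stepH {K : Type} (bl : K) (phi : K → K → K → K) (halt : K → Bool) (x : List K)
    (j : ℕ) (h : ∀ i < j, ∀ s ∈ (step bl phi)^[i] x, halt s = false) :
    iter (stepH bl phi halt) j x = some ((step bl phi)^[j] x) := by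
  induction j with
  | zero => rfl
  | succ j ih =>
    show (iter (stepH bl phi halt) j x).bind _ = _
    rw [ih fun i hi => h i (Nat.lt_succ_of_lt hi), Function.iterate_succ_apply']
    show stepH bl phi halt _ = _
    unfold stepH
    rw [if_pos (h j (Nat.lt_succ_self j))]

theorem assembly (hM : Stmt_T1) (hB : Stmt_BAD) (hG : Stmt_GOOD) (hS : Stmt_STR) :
    ¬ Decidable1 := by
  rintro ⟨D, hD, hdec⟩
  obtain ⟨K, _, _, bl, phi, halt, bad, cX, cY, cW, hbh, hun⟩ := hM
  obtain ⟨I, hI, hSt⟩ := hS K bl phi halt bad cX cY cW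
  have hb : ∀ n, ∃ b, b ∈ D (I n) ∧ (b = true ↔
      SyncAutomatic (Sg (stepH bl phi halt) (Hbad bad) (start cX cY cW n))) := by
    intro n
    obtain ⟨g, hg⟩ := hSt n
    obtain ⟨b, h1, h2⟩ := hdec _ _ _ hg
    exact ⟨b, h1, h2⟩
  choose D' hD' hdec' using hb
  apply hun
  refine ⟨D', Partrec.of_eq_tot (hD.comp hI) hD', ?_, ?_⟩
  · rintro n ⟨j, h1, h2⟩
    by_contra hc
    have hh : D' n = true := by simpa using hc
    exact hB K _ _ _ j _ (iter_stepH bl phi halt _ j h1) h2 ((hdec' n).1 hh)
  · rintro n ⟨j, h1, ⟨s, hs, hs'⟩, h2⟩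
    refine (hdec' n).2 (hG K bl phi halt bad _ j _ hbh (iter_stepH bl phi halt _ j h1) ?_ ?_)
    · unfold stepH
      rw [if_neg]
      intro hcon
      rw [hcon s hs] at hs'
      cases hs'
    · rintro ⟨s', hs', hb⟩
      rw [h2 s' hs'] at hb
      cases hb

end Pool.Agent.Work.MP_567c26_al.V2
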