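import Pool.Agent.Work.MP_567c26_al.V2.Reg
import Pool.Agent.Work.MP_567c26_al.V2.Interface

/-!
# Block BAD: the semigroup is not automatic if the orbit of the start word meets `H`
-/

set_option linter.unusedVariables false

namespace Pool.Agent.Work.MP_567c26_al.V2

/-! ## Pumping the padded tail -/

theorem cut_right {A : Type} {L : Language (Option A × Option A)} (hL : L.IsRegular) :
    ∃ C, ∀ u v, pad u v ∈ L → u.length + C ≤ v.length →
      ∃ v', v'.length < v.length ∧ pad u v' ∈ L := by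
  obtain ⟨σ, _, M, rfl⟩ := hL
  refine ⟨Fintype.card σ, fun u v h hlen => ?_⟩
  obtain ⟨v1, v2, rfl, hv⟩ : ∃ v1 v2, v = v1 ++ v2 ∧ v1.length = u.length :=
    ⟨v.take u.length, v.drop u.length, (List.take_append_drop _ _).symm, by
      rw [List.length_take]; omega⟩
  have e : ∀ z, pad u (v1 ++ z) = pad u v1 ++ z.map fun b => (none, some b) := by
    intro z
    have := pad_append hv.symm [] z
    rwa [List.append_nil, pad_nil_left] at this
  rw [e] at h
  have h' : M.evalFrom (M.evalFrom M.start (pad u v1)) (v2.map fun b => (none, some b)) ∈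
      M.accept := by
    rw [← DFA.evalFrom_of_append]
    exact h
  obtain ⟨q, a, b, c, hx, _, hb, h1, h2, h3⟩ := M.evalFrom_split (s := M.evalFrom M.start
    (pad u v1)) (x := v2.map fun b => (none, some b)) (t := _) (by
      rw [List.length_map]
      rw [List.length_append] at hlen
      omega) rfl
  obtain ⟨ab, c', rfl, hab, hc⟩ := List.map_eq_append_iff.1 hx
  obtain ⟨a', b', rfl, ha', hb'⟩ := List.map_eq_append_iff.1 hab
  refine ⟨v1 ++ (a' ++ c'), ?_, ?_⟩
  · have : 0 < b'.length := by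
      rcases b' with _ | ⟨b0, b'⟩
      · exact absurd hb'.symm hb
      · simp
    simp only [List.length_append]
    omega
  · rw [e, List.map_append, ha', hc]
    show M.evalFrom M.start _ ∈ M.accept
    rw [DFA.evalFrom_of_append, DFA.evalFrom_of_append, h1, h3]
    exact h'

theorem pad_swap {A : Type} (u v : List A) : (pad u v).map Prod.swap = pad v u := by
  unfold pad
  rw [List.map_map, max_comm]
  rfl

theorem cut_left {A : Type} {L : Language (Option A × Option A)} (hL : L.IsRegular) :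
    ∃ C, ∀ u v, pad u v ∈ L → v.length + C ≤ u.length →
      ∃ u', u'.length < u.length ∧ pad u' v ∈ L := by
  obtain ⟨C, hC⟩ := cut_right (reg_comap Prod.swap hL)
  refine ⟨C, fun u v h hlen => ?_⟩
  obtain ⟨u', h1, h2⟩ := hC v u (by
    show (pad v u).map Prod.swap ∈ L
    rwa [pad_swap]) hlen
  refine ⟨u', h1, ?_⟩
  have h3 : (pad v u').map Prod.swap ∈ L := h2
  rwa [pad_swap] at h3

/-! ## Shortest names -/

section
variable {A S : Type} [Fintype A] [Semigroup S] {g : A → S} {L : Language A}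

open Classical in
/-- The length of a shortest name. -/
noncomputable def lam (g : A → S) (L : Language A) (s : S) : ℕ :=
  sInf {n | ∃ u ∈ L, Val g u s ∧ u.length = n}

theorem exists_lam (hS : SyncStructure S g L) (s : S) :
    ∃ u ∈ L, Val g u s ∧ u.length = lam g L s := by
  obtain ⟨u, hu, hv⟩ := hS.surj s
  exact Nat.sInf_mem (s := {n | ∃ u ∈ L, Val g u s ∧ u.length = n}) ⟨_, u, hu, hv, rfl⟩

theorem lam_le {s : S} {u : List A} (hu : u ∈ L) (hv : Val g u s) : lam g L s ≤ u.length :=
  Nat.sInf_le ⟨u, hu, hv, rfl⟩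

theorem lam_mul (hS : SyncStructure S g L) (a : A) :
    ∃ C, ∀ s, lam g L (s * g a) ≤ lam g L s + C := by
  obtain ⟨C, hC⟩ := cut_right (hS.mul a)
  refine ⟨C, fun s => ?_⟩
  obtain ⟨u, hu, huv, hul⟩ := exists_lam hS s
  obtain ⟨v, hv, hvv, hvl⟩ := exists_lam hS (s * g a)
  by_contra hc
  obtain ⟨v', h1, u1, hu1, v1, hv1, ⟨s1, h2, h3⟩, h4⟩ := hC u v
    ⟨u, hu, v, hv, ⟨s, huv, hvv⟩, rfl⟩ (by omega)
  obtain ⟨rfl, rfl⟩ := pad_inj h4
  have := val_unique huv h2
  subst this
  have := lam_le hv1 h3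
  omega

theorem lam_mul' (hS : SyncStructure S g L) (a : A) :
    ∃ C, ∀ s, (∀ s', s' * g a = s * g a → s' = s) → lam g L s ≤ lam g L (s * g a) + C := by
  obtain ⟨C, hC⟩ := cut_left (hS.mul a)
  refine ⟨C, fun s hs => ?_⟩
  obtain ⟨u, hu, huv, hul⟩ := exists_lam hS s
  obtain ⟨v, hv, hvv, hvl⟩ := exists_lam hS (s * g a)
  by_contra hc
  obtain ⟨u', h1, u1, hu1, v1, hv1, ⟨s1, h2, h3⟩, h4⟩ := hC u v
    ⟨u, hu, v, hv, ⟨s, huv, hvv⟩, rfl⟩ (by omega)
  obtain ⟨rfl, rfl⟩ := pad_inj h4
  have := hs s1 (val_unique h3 hvv)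
  subst this
  have := lam_le hu1 h2
  omega

theorem weight_le (wt : S → ℕ) (hwt : ∀ s s', wt (s * s') ≤ wt s + wt s')
    (hS : SyncStructure S g L) : ∃ D, ∀ s, wt s ≤ D * lam g L s := by
  refine ⟨Finset.univ.sup fun a => wt (g a), fun s => ?_⟩
  obtain ⟨u, hu, huv, hul⟩ := exists_lam hS s
  rw [← hul]
  obtain ⟨a, l, rfl, rfl⟩ := huv
  have hD : ∀ a, wt (g a) ≤ Finset.univ.sup fun a => wt (g a) := fun a =>
    Finset.le_sup (f := fun a => wt (g a)) (Finset.mem_univ a)
  have key : ∀ (l : List A) (y : S), wt (l.foldl (fun x b => x * g b) y) ≤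
      wt y + (Finset.univ.sup fun a => wt (g a)) * l.length := by
    intro l
    induction l with
    | nil => intro y; simp
    | cons b l ih =>
      intro y
      rw [List.foldl_cons, List.length_cons, Nat.mul_succ]
      have h1 := ih (y * g b)
      have h2 := hwt y (g b)
      have h3 := hD b
      omega
  have h1 := key l (g a)
  have h2 := hD a
  rw [List.length_cons, Nat.mul_succ]
  omega

end

/-! ## The semigroup -/

section
variable {K : Type} (f : List K → Option (List K)) (H : List K → Prop) (x0 : List K)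

theorem mul_ne_letter (b : Lt K) (s s' : Sg f H x0) : s * s' ≠ eF f H x0 b [] := by
  rcases Sg.cases f H x0 s' with ⟨a', l', rfl⟩ | ⟨y, rfl⟩
  · rcases Sg.cases f H x0 s with ⟨a, l, rfl⟩ | ⟨y, rfl⟩
    · rw [eF_mul_eF]
      intro h
      have := (eF_inj f H x0 h).2
      simp at this
    · rw [eP_mul_eF]
      exact fun h => eF_ne_eP f H x0 h.symm
  · rw [mul_eP]
    exact fun h => eF_ne_eP f H x0 h.symm

theorem exists_letter {A : Type} [Fintype A] {g : A → Sg f H x0} {L : Language A}
    (hS : SyncStructure (Sg f H x0) g L) (b : Lt K) : ∃ a, g a = gl f H x0 (some b) := by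
  obtain ⟨u, hu, a, l, rfl, e⟩ := hS.surj (eF f H x0 b [])
  rcases List.eq_nil_or_concat l with rfl | ⟨l', z, rfl⟩
  · exact ⟨a, e⟩
  · rw [List.concat_eq_append, List.foldl_append] at e
    exact absurd e (mul_ne_letter f H x0 b _ _)

/-- The weight of a vertex. -/
def wv : Vx K → ℕ
  | .P x k => x.length + k
  | .M _ _ => 0

/-- The weight of an element. -/
def wt : Sg f H x0 → ℕ
  | .fr _ l => l.length + 1
  | .pt x => wv x

theorem wv_act (x : Vx K) (b : Lt K) : wv (act f H x0 x b) ≤ wv x + 1 := by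
  cases x with
  | P x k =>
    cases b <;> simp only [act] <;> (try split_ifs) <;> simp [wv, root] <;> omega
  | M x k =>
    cases b <;> simp only [act]
    case t => cases f x <;> simp [wv, root]
    all_goals simp [wv, root]

theorem wv_foldl (l : List (Lt K)) (x : Vx K) : wv (l.foldl (act f H x0) x) ≤ wv x + l.length := by
  induction l generalizing x with
  | nil => simp
  | cons b l ih =>
    rw [List.foldl_cons, List.length_cons]
    have h1 := ih (act f H x0 x b)
    have h2 := wv_act f H x0 x b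
    omega

theorem wt_mul (s s' : Sg f H x0) : wt f H x0 (s * s') ≤ wt f H x0 s + wt f H x0 s' := by
  rcases Sg.cases f H x0 s' with ⟨a', l', rfl⟩ | ⟨y, rfl⟩
  · rcases Sg.cases f H x0 s with ⟨a, l, rfl⟩ | ⟨y, rfl⟩
    · rw [eF_mul_eF]
      show (l ++ a' :: l').length + 1 ≤ (l.length + 1) + (l'.length + 1)
      rw [List.length_append, List.length_cons]
      omega
    · rw [eP_mul_eF]
      exact wv_foldl f H x0 (a' :: l') y
  · rw [mul_eP]
    exact Nat.le_add_left _ _

end

theorem exists_pow_gt (a b : ℕ) : ∃ j, a + b * j < 2 ^ j := by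
  obtain ⟨n, hn, ha, hb⟩ : ∃ n, 1 ≤ n ∧ a ≤ n ∧ b ≤ n := ⟨a + b + 1, by omega, by omega, by omega⟩
  refine ⟨4 * n, ?_⟩
  have h1 : n + 1 ≤ 2 ^ n := Nat.lt_two_pow_self
  have h2 : (n + 1) ^ 4 ≤ 2 ^ (4 * n) := by
    rw [mul_comm, pow_mul]
    exact Nat.pow_le_pow_left h1 4
  have h3 : b * (4 * n) ≤ 4 * (n * n) := by
    calc b * (4 * n) ≤ n * (4 * n) := Nat.mul_le_mul_right _ hb
      _ = 4 * (n * n) := by ring
  nlinarith [Nat.mul_le_mul hn hn, Nat.mul_le_mul (Nat.mul_le_mul hn hn) hn]

theorem stmt_BAD : Stmt_BAD := by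
  intro K _ f H x0 i x hi hH
  rintro ⟨A, _, g, L, hS⟩
  have hmul : ∀ b : Lt K, ∃ C, ∀ s, lam g L (s * gl f H x0 (some b)) ≤ lam g L s + C := by
    intro b
    obtain ⟨a, ha⟩ := exists_letter f H x0 hS b
    rw [← ha]
    exact lam_mul hS a
  obtain ⟨Ct, hCt⟩ := hmul .t
  obtain ⟨Cd, hCd⟩ := hmul .d
  obtain ⟨Cg, hCg⟩ := hmul .g
  obtain ⟨Ce, hCe⟩ : ∃ C, ∀ s, (∀ s', s' * gl f H x0 (some .e) = s * gl f H x0 (some .e) →
      s' = s) → lam g L s ≤ lam g L (s * gl f H x0 (some .e)) + C := by
    obtain ⟨a, ha⟩ := exists_letter f H x0 hS .e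
    rw [← ha]
    exact lam_mul' hS a
  obtain ⟨D, hD⟩ := weight_le (wt f H x0) (wt_mul f H x0) hS
  have ht : ∀ (j : ℕ) (y : List K) (k : ℕ), iter f j x0 = some y →
      lam g L (eP f H x0 (.M y k)) ≤ lam g L (eP f H x0 (.M x0 k)) + j * Ct := by
    intro j
    induction j with
    | zero =>
      intro y k h
      have : x0 = y := Option.some.inj h
      subst this
      simp
    | succ j ih =>
      intro y k h
      have h' : (iter f j x0).bind f = some y := h
      obtain ⟨z, hz, hzy⟩ := Option.bind_eq_some_iff.1 h'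
      have h1 := ih z k hz
      have h2 := hCt (eP f H x0 (.M z k))
      rw [eP_mul] at h2
      have h3 : act f H x0 (.M z k) .t = .M y k := by
        unfold act
        simp [hzy]
      rw [h3] at h2
      rw [Nat.succ_mul]
      omega
  have main : ∀ N, lam g L (eP f H x0 (.P [] (x.length + 2 * N))) ≤
      lam g L (eP f H x0 (.P [] N)) + (Cd + i * Ct + Ce + Cg) := by
    intro N
    have h1 := hCd (eP f H x0 (.P [] N))
    rw [eP_mul, show act f H x0 (.P [] N) .d = .M x0 (2 * N) by simp [act]] at h1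
    have h2 := ht i x (2 * N) hi
    have h3 := hCe (eP f H x0 (.P x (2 * N))) (by
      intro s' hs'
      rw [eP_mul, show act f H x0 (.P x (2 * N)) .e = .M x (2 * N) by simp [act, hH]] at hs'
      rcases Sg.cases f H x0 s' with ⟨a, l, rfl⟩ | ⟨y, rfl⟩
      · rw [eF_mul] at hs'
        exact absurd hs' (eF_ne_eP f H x0)
      · rw [eP_mul] at hs'
        have h4 := eP_inj f H x0 hs'
        cases y with
        | P y k =>
          simp only [act] at h4
          split_ifs at h4 with hy
          · injection h4 with h6 h7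
            rw [h6, h7]
          · cases h4
        | M y k =>
          have h5 : (root : Vx K) = .M x (2 * N) := h4
          cases h5)
    rw [eP_mul, show act f H x0 (.P x (2 * N)) .e = .M x (2 * N) by simp [act, hH]] at h3
    have h4 := hCg (eP f H x0 (.P x (2 * N)))
    rw [eP_mul, show act f H x0 (.P x (2 * N)) .g = .P [] (x.length + 2 * N) from rfl] at h4
    omega
  set C := Cd + i * Ct + Ce + Cg with hC
  let N : ℕ → ℕ := fun j => (fun n => x.length + 2 * n)^[j] 1
  have hN : ∀ j, N (j + 1) = x.length + 2 * N j := fun j =>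
    Function.iterate_succ_apply' (fun n => x.length + 2 * n) j 1
  have hN1 : ∀ j, 2 ^ j ≤ N j := by
    intro j
    induction j with
    | zero => exact le_refl 1
    | succ j ih => rw [hN, pow_succ]; omega
  have hN2 : ∀ j, lam g L (eP f H x0 (.P [] (N j))) ≤ lam g L (eP f H x0 (.P [] 1)) + C * j := by
    intro j
    induction j with
    | zero => exact le_refl _
    | succ j ih =>
      have := main (N j)
      rw [← hN] at this
      rw [Nat.mul_succ]
      omega
  obtain ⟨j, hj⟩ := exists_pow_gt (D * lam g L (eP f H x0 (.P [] 1))) (D * C)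
  have h1 := hD (eP f H x0 (.P [] (N j)))
  have h2 : N j ≤ D * lam g L (eP f H x0 (.P [] (N j))) := by
    have : wt f H x0 (eP f H x0 (.P [] (N j))) = N j := by
      show ([] : List K).length + N j = N j
      simp
    rwa [this] at h1
  have h3 := Nat.mul_le_mul_left D (hN2 j)
  have h4 := hN1 j
  rw [Nat.mul_add, ← Nat.mul_assoc] at h3
  omega

end Pool.Agent.Work.MP_567c26_al.V2
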