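import Pool.Agent.Work.MP_567c26_al.V2.Nf

/-!
# Block GOOD
-/

set_option linter.unusedVariables false

namespace Pool.Agent.Work.MP_567c26_al.V2

open MP_567c26_al_helper68

theorem iter_succ' {K : Type} (f : List K → Option (List K)) (n : ℕ) (D : List K) :
    iter f (n + 1) D = (f D).bind (iter f n) := by
  induction n with
  | zero =>
    show (some D).bind f = _
    simp [iter]
  | succ n ih =>
    show (iter f (n + 1) D).bind f = _
    rw [ih, Option.bind_assoc]
    rfl

theorem stmt_GOOD (hR : Stmt_REL) : Stmt_GOOD := by
  intro K _ bl phi halt bad x0 i x hbh hi hx hb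
  have hlen : ∀ (j : ℕ) (y z : List K), iter (stepH bl phi halt) j y = some z →
      y.length + 2 * j = z.length := by
    intro j
    induction j with
    | zero =>
      intro y z h
      have : y = z := Option.some.inj h
      subst this
      rfl
    | succ j ih =>
      intro y z h
      obtain ⟨u, hu, huz⟩ := Option.bind_eq_some_iff.1
        (show (iter (stepH bl phi halt) j y).bind _ = some z from h)
      have h1 := ih y u hu
      unfold stepH at huz
      split_ifs at huz
      injection huz with huz
      rw [← huz, step_length]
      omega
  have hfin : {y | ∃ j, iter (stepH bl phi halt) j y = some x}.Finite := by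
    refine (List.finite_length_le K x.length).subset ?_
    rintro y ⟨j, hj⟩
    have := hlen j y x hj
    show y.length ≤ x.length
    omega
  have hclosed : Closed (stepH bl phi halt) fun y => ∃ j, iter (stepH bl phi halt) j y = some x := by
    intro y z hyz
    constructor
    · rintro ⟨j, hj⟩
      cases j with
      | zero =>
        have : y = x := Option.some.inj hj
        subst this
        rw [hx] at hyz
        cases hyz
      | succ j =>
        rw [iter_succ', hyz] at hj
        exact ⟨j, hj⟩
    · rintro ⟨j, hj⟩
      refine ⟨j + 1, ?_⟩
      rw [iter_succ', hyz]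
      exact hj
  have hdisj : ∀ y, Hbad bad y → ¬ ∃ j, iter (stepH bl phi halt) j y = some x := by
    rintro y hy ⟨j, hj⟩
    cases j with
    | zero =>
      have : y = x := Option.some.inj hj
      subst this
      exact hb hy
    | succ j =>
      rw [iter_succ'] at hj
      obtain ⟨s, hs, hs'⟩ := hy
      have : stepH bl phi halt y = none := by
        unfold stepH
        rw [if_neg]
        intro hcon
        have := hcon s hs
        rw [hbh s hs'] at this
        cases this
      rw [this] at hj
      cases hj
  obtain ⟨h1, h2, h3⟩ := hR K bl phi halt bad x0 _ hfin hclosed hdisj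
  refine ⟨Option (Lt K), inferInstance, gl _ _ x0, Lw _, gl_injective _ _ _, h1, ?_, ?_, h2,
    fun b => h3 b (Or.inr ⟨i, hi⟩)⟩
  · rintro ⟨s, hs⟩
    exact val_ne (val_nf (stepH bl phi halt) (Hbad bad) x0 _ s) hs
  · intro s
    exact ⟨_, ⟨s, rfl⟩, val_nf _ _ _ _ s⟩

end Pool.Agent.Work.MP_567c26_al.V2
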