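import Pool.Agent.Work.MP_567c26_al.V2.Reg
import Pool.Agent.Work.MP_567c26_al.V2.Interface

/-!
# Normal forms
-/

set_option linter.unusedVariables false

namespace Pool.Agent.Work.MP_567c26_al.V2

section
variable {K : Type} (f : List K → Option (List K)) (H : List K → Prop) (x0 : List K)

theorem foldl_s (x y : List K) :
    (x.map Lt.s).foldl (act f H x0) (.P y 0) = .P (y ++ x) 0 := by
  induction x generalizing y with
  | nil => simp
  | cons a x ih =>
    rw [List.map_cons, List.foldl_cons, show act f H x0 (.P y 0) (.s a) = .P (y ++ [a]) 0 by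
      simp [act], ih]
    simp

theorem foldl_i (x : List K) (j k : ℕ) :
    (List.replicate k Lt.i).foldl (act f H x0) (.P x j) = .P x (j + k) := by
  induction k generalizing j with
  | zero => rfl
  | succ k ih =>
    rw [List.replicate_succ, List.foldl_cons, show act f H x0 (.P x j) .i = .P x (j + 1) from rfl,
      ih]
    congr 1
    omega

theorem foldl_h (x : List K) (j k : ℕ) :
    (List.replicate k Lt.h).foldl (act f H x0) (.M x j) = .M x (j + k) := by
  induction k generalizing j with
  | zero => rfl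
  | succ k ih =>
    rw [List.replicate_succ, List.foldl_cons, show act f H x0 (.M x j) .h = .M x (j + 1) from rfl,
      ih]
    congr 1
    omega

theorem foldl_Mi (x : List K) (j k : ℕ) :
    (List.replicate k Lt.i).foldl (act f H x0) (.M x j) = .M x (j + 2 * k) := by
  induction k generalizing j with
  | zero => rfl
  | succ k ih =>
    rw [List.replicate_succ, List.foldl_cons, show act f H x0 (.M x j) .i = .M x (j + 2) from rfl,
      ih]
    congr 1
    omega

theorem foldl_sq (x : List K) (l : List (Lt K)) :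
    (x.map Lt.s ++ Lt.q :: l).foldl (act f H x0) root = l.foldl (act f H x0) (.M x 0) := by
  rw [List.foldl_append, root, foldl_s, List.foldl_cons, List.nil_append]
  congr 1

theorem nf_F (W : List K → Prop) (a : Lt K) (l : List (Lt K)) :
    nf W (eF f H x0 a l) = (a :: l).map some := rfl

theorem nf_P (W : List K → Prop) (x : List K) (k : ℕ) :
    nf W (eP f H x0 (.P x k)) = none :: (x.map Lt.s ++ List.replicate k Lt.i).map some := rfl

theorem nf_M_pos {W : List K → Prop} {x : List K} (h : W x) (k : ℕ) :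
    nf W (eP f H x0 (.M x k)) = none :: (x.map Lt.s ++ Lt.q ::
      (List.replicate (k / 2) Lt.i ++ List.replicate (k % 2) Lt.h)).map some := by
  show none :: List.map some _ = _
  rw [if_pos h]

theorem nf_M_neg {W : List K → Prop} {x : List K} (h : ¬ W x) (k : ℕ) :
    nf W (eP f H x0 (.M x k)) = none :: (x.map Lt.s ++ Lt.q ::
      List.replicate k Lt.h).map some := by
  show none :: List.map some _ = _
  rw [if_neg h]

theorem val_nf (W : List K → Prop) (s : Sg f H x0) : Val (gl f H x0) (nf W s) s := by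
  rcases Sg.cases f H x0 s with ⟨a, l, rfl⟩ | ⟨y, rfl⟩
  · exact val_fr f H x0 a l
  · cases y with
    | P x k =>
      have := val_pt f H x0 (x.map Lt.s ++ List.replicate k Lt.i)
      rw [List.foldl_append, root, foldl_s, foldl_i, List.nil_append, Nat.zero_add] at this
      exact this
    | M x k =>
      by_cases h : W x
      · have := val_pt f H x0 (x.map Lt.s ++ Lt.q ::
          (List.replicate (k / 2) Lt.i ++ List.replicate (k % 2) Lt.h))
        rw [foldl_sq, List.foldl_append, foldl_Mi, foldl_h,
          show 0 + 2 * (k / 2) + k % 2 = k by omega] at this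
        rw [nf_M_pos f H x0 h]
        exact this
      · have := val_pt f H x0 (x.map Lt.s ++ Lt.q :: List.replicate k Lt.h)
        rw [foldl_sq, foldl_h, Nat.zero_add] at this
        rw [nf_M_neg f H x0 h]
        exact this

theorem nf_inj (W : List K → Prop) {s s' : Sg f H x0} (h : nf W s = nf W s') : s = s' :=
  val_unique (val_nf f H x0 W s) (h ▸ val_nf f H x0 W s')

theorem mem_Lw (W : List K → Prop) (s : Sg f H x0) : nf W s ∈ Lw W := ⟨s, rfl⟩

theorem val_iff (W : List K → Prop) {u : List (Option (Lt K))} (hu : u ∈ Lw W)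
    (s : Sg f H x0) : Val (gl f H x0) u s ↔ u = nf W s := by
  obtain ⟨s', rfl⟩ := hu
  constructor
  · intro h
    rw [val_unique h (val_nf f H x0 W s')]
  · intro h
    have := nf_inj f H x0 W (s := s') (s' := s) h
    subst this
    exact val_nf f H x0 W s'

theorem mem_eqLang (W : List K → Prop) (w : List (Option (Option (Lt K)) ×
    Option (Option (Lt K)))) :
    w ∈ eqLang (gl f H x0) (Lw W) ↔ ∃ u ∈ Lw W, w = pad u u := by
  constructor
  · rintro ⟨u, hu, v, hv, ⟨s, h1, h2⟩, rfl⟩
    rw [val_iff f H x0 W hu] at h1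
    rw [val_iff f H x0 W hv] at h2
    exact ⟨u, hu, by rw [h1, h2]⟩
  · rintro ⟨u, ⟨s, rfl⟩, rfl⟩
    exact ⟨_, ⟨s, rfl⟩, _, ⟨s, rfl⟩, ⟨s, val_nf f H x0 W s, val_nf f H x0 W s⟩, rfl⟩

theorem mem_mulLang (W : List K → Prop) (b : Option (Lt K)) (w : List (Option (Option (Lt K)) ×
    Option (Option (Lt K)))) :
    w ∈ mulLang (gl f H x0) (Lw W) b ↔
      ∃ s : Sg f H x0, w = pad (nf W s) (nf W (s * gl f H x0 b)) := by
  constructor
  · rintro ⟨u, hu, v, hv, ⟨s, h1, h2⟩, rfl⟩
    rw [val_iff f H x0 W hu] at h1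
    rw [val_iff f H x0 W hv] at h2
    exact ⟨s, by rw [h1, h2]⟩
  · rintro ⟨s, rfl⟩
    exact ⟨_, ⟨s, rfl⟩, _, ⟨_, rfl⟩, ⟨s, val_nf f H x0 W s, val_nf f H x0 W _⟩, rfl⟩

end

end Pool.Agent.Work.MP_567c26_al.V2
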