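import Pool.Agent.Work.MP_567c26_al.V2.Aut
import Pool.Agent.Work.MP_567c26_al.V2.Nf

/-!
# Block STR: the quasi-automatic structures, computable in the input
-/

set_option linter.unusedVariables false
set_option linter.style.haveILetI false

namespace Pool.Agent.Work.MP_567c26_al.V2

open MP_567c26_al_helper68

/-- The empty set of words. -/
def W0 {K : Type} (_ : List K) : Prop := False

section
variable {K : Type} (f : List K → Option (List K)) (H : List K → Prop) (x0 x0' : List K)

theorem act_indep (y : Vx K) (b : Lt K) (hb : b ≠ .d) :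
    act f H x0 y b = act f H x0' y b := by
  cases y <;> cases b <;> first | rfl | exact absurd rfl hb

theorem mul_indep (s : SgD K) (b : Option (Lt K)) (hb : b ≠ some .d) :
    ((show Sg f H x0 from s) * gl f H x0 b : SgD K) =
      ((show Sg f H x0' from s) * gl f H x0' b : SgD K) := by
  cases b with
  | none => rw [mul_c, mul_c]; rfl
  | some b =>
    cases s with
    | fr a l => rfl
    | pt y =>
      show SgD.pt (act f H x0 y b) = SgD.pt (act f H x0' y b)
      rw [act_indep f H x0 x0' y b fun h => hb (by rw [h])]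

theorem mulLang_indep (W : List K → Prop) (b : Option (Lt K)) (hb : b ≠ some .d) :
    mulLang (gl f H x0) (Lw W) b = mulLang (gl f H x0') (Lw W) b := by
  ext w
  rw [mem_mulLang, mem_mulLang]
  constructor
  · rintro ⟨s, e⟩
    refine ⟨s, e.trans ?_⟩
    exact congrArg (fun z : SgD K => pad (nf W s) (nf W z)) (mul_indep f H x0 x0' s b hb)
  · rintro ⟨s, e⟩
    refine ⟨s, e.trans ?_⟩
    exact congrArg (fun z : SgD K => pad (nf W s) (nf W z)) (mul_indep f H x0' x0 s b hb)

theorem eqLang_indep (W : List K → Prop) :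
    eqLang (gl f H x0) (Lw W) = eqLang (gl f H x0') (Lw W) := by
  ext w
  rw [mem_eqLang, mem_eqLang]

/-- The part of the multiplication by `d` which does not depend on `x0`. -/
def D0 (K : Type) : Language (Option (Option (Lt K)) × Option (Option (Lt K))) :=
  {w | (∃ (a : Lt K) (l : List (Lt K)), w = pad ((a :: l).map some) ((a :: l).map some ++ [some .d])) ∨
    ∃ y : Vx K, (∀ k, y ≠ .P [] k) ∧ w = pad (nf W0 (.pt y)) [none]}

theorem act_d (y : Vx K) (h : ∀ k, y ≠ .P [] k) : act f H x0 y .d = root := by
  cases y with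
  | P x k =>
    have : x ≠ [] := by
      rintro rfl
      exact h k rfl
    simp [act, this]
  | M x k => rfl

theorem nf_pt_cons (W : List K → Prop) (y : Vx K) : ∃ l, nf W (.pt y) = none :: l := by
  cases y <;> exact ⟨_, rfl⟩

theorem D0_regular (hL : (Lw (W0 (K := K))).IsRegular) : (D0 K).IsRegular := by
  have hF : Language.IsRegular ({u | u ∈ Lw (W0 (K := K)) ∧ ∀ a ∈ u, a ≠ none} :
      Language (Option (Lt K))) := reg_and hL (reg_all _)
  have hG : Language.IsRegular ({u | u ∈ Lw (W0 (K := K)) ∧ (¬ ∀ a ∈ u, a ≠ none) ∧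
      ¬ ∃ v ∈ ({w | ∃ k, w = List.replicate k (some Lt.i)} : Language (Option (Lt K))),
        u = none :: v} : Language (Option (Lt K))) :=
    reg_and hL (reg_and (reg_not (reg_all _)) (reg_not (reg_cons none (reg_rep (some Lt.i)))))
  refine reg_congr (reg_or (reg_pad_append [some .d] hF) (reg_pad_const none hG)) fun w => ?_
  constructor
  · rintro (⟨u, ⟨⟨s, rfl⟩, h1⟩, rfl⟩ | ⟨u, ⟨⟨s, rfl⟩, h1, h2⟩, rfl⟩)
    · left
      cases s with
      | fr a l => exact ⟨a, l, rfl⟩
      | pt y =>
        exfalso
        obtain ⟨l, hl⟩ := nf_pt_cons W0 y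
        exact h1 none (by rw [hl]; simp) rfl
    · right
      cases s with
      | fr a l =>
        exfalso
        apply h1
        intro b hb
        obtain ⟨b', _, rfl⟩ := List.mem_map.1 (show b ∈ (a :: l).map some from hb)
        simp
      | pt y =>
        refine ⟨y, ?_, rfl⟩
        rintro k rfl
        exact h2 ⟨List.replicate k (some Lt.i), ⟨k, rfl⟩, by
          show none :: List.map some _ = _
          simp⟩
  · rintro (⟨a, l, rfl⟩ | ⟨y, hy, rfl⟩)
    · left
      refine ⟨(a :: l).map some, ⟨⟨.fr a l, rfl⟩, ?_⟩, rfl⟩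
      intro b hb
      obtain ⟨b', _, rfl⟩ := List.mem_map.1 hb
      simp
    · right
      refine ⟨_, ⟨⟨.pt y, rfl⟩, ?_, ?_⟩, rfl⟩
      · intro h
        obtain ⟨l, hl⟩ := nf_pt_cons W0 y
        exact h none (by rw [hl]; simp) rfl
      · rintro ⟨v, ⟨k, rfl⟩, e⟩
        have e2 : nf W0 (.pt (.P [] k) : SgD K) = none :: List.replicate k (some Lt.i) := by
          show none :: List.map some _ = _
          simp
        have := nf_inj (fun _ => none) (fun _ => False) [] W0
          (s := (.pt y : SgD K)) (s' := (.pt (.P [] k) : SgD K)) (e.trans e2.symm)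
        have h3 : (SgD.pt y : SgD K) = .pt (.P [] k) := this
        injection h3 with h3
        exact hy k h3

/-- The multiplication by `d`. -/
theorem mulLang_d (u v : List (Option (Lt K))) :
    pad u v ∈ mulLang (gl f H x0) (Lw W0) (some .d) ↔ pad u v ∈ D0 K ∨
      ∃ k, u = none :: List.replicate k (some Lt.i) ∧
        v = none :: (x0.map Lt.s ++ Lt.q :: List.replicate (2 * k) Lt.h).map some := by
  rw [mem_mulLang]
  have eP0 : ∀ k, nf W0 (eP f H x0 (.P [] k)) = none :: List.replicate k (some Lt.i) := by
    intro k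
    rw [nf_P]
    simp
  constructor
  · rintro ⟨s, e⟩
    obtain ⟨rfl, rfl⟩ := pad_inj e
    rcases Sg.cases f H x0 s with ⟨a, l, rfl⟩ | ⟨y, rfl⟩
    · left
      left
      refine ⟨a, l, ?_⟩
      rw [eF_mul, nf_F, nf_F]
      simp
    · by_cases hy : ∀ k, y ≠ .P [] k
      · left
        right
        refine ⟨y, hy, ?_⟩
        rw [eP_mul, act_d f H x0 y hy]
        rfl
      · right
        push Not at hy
        obtain ⟨k, rfl⟩ := hy
        refine ⟨k, eP0 k, ?_⟩
        rw [eP_mul, show act f H x0 (.P [] k) .d = .M x0 (2 * k) by simp [act],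
          nf_M_neg f H x0 (W := W0) (fun h => h)]
  · rintro ((⟨a, l, e⟩ | ⟨y, hy, e⟩) | ⟨k, rfl, rfl⟩)
    · refine ⟨eF f H x0 a l, e.trans ?_⟩
      rw [eF_mul, nf_F, nf_F]
      simp
    · refine ⟨eP f H x0 y, e.trans ?_⟩
      rw [eP_mul, act_d f H x0 y hy]
      rfl
    · refine ⟨eP f H x0 (.P [] k), ?_⟩
      rw [eP_mul, show act f H x0 (.P [] k) .d = .M x0 (2 * k) by simp [act],
        nf_M_neg f H x0 (W := W0) (fun h => h), eP0]

/-- Values of the words of numbers. -/
theorem val_num {B S : Type} [Semigroup S] (num : B → ℕ) (g : ℕ → S) (g' : B → S)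
    (h : ∀ b, g (num b) = g' b) (u : List B) (s : S) : Val g (u.map num) s ↔ Val g' u s := by
  have key : ∀ (l : List B) (x : S), (l.map num).foldl (fun x b => x * g b) x =
      l.foldl (fun x b => x * g' b) x := by
    intro l
    induction l with
    | nil => intro x; rfl
    | cons b l ih => intro x; rw [List.map_cons, List.foldl_cons, List.foldl_cons, ih, h]
  constructor
  · rintro ⟨a, l, e, e2⟩
    cases u with
    | nil => cases e
    | cons b u =>
      injection e with e e'
      subst e; subst e'
      exact ⟨b, u, rfl, by rw [← key, ← h]; exact e2⟩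
  · rintro ⟨a, l, rfl, e2⟩
    exact ⟨num a, l.map num, rfl, by rw [key, h]; exact e2⟩

end

theorem flatten_replicate_single (k a : ℕ) :
    (List.replicate k [a]).flatten = List.replicate k a := by
  induction k with
  | zero => rfl
  | succ k ih => rw [List.replicate_succ, List.flatten_cons, ih]; rfl

theorem flatten_replicate_two (k a : ℕ) :
    (List.replicate k [a, a]).flatten = List.replicate (2 * k) a := by
  induction k with
  | zero => rfl
  | succ k ih => rw [List.replicate_succ, List.flatten_cons, ih, Nat.mul_succ]; rfl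

theorem flatMap_range_const {α : Type} (n : ℕ) (l : List α) :
    (List.range n).flatMap (fun _ => l) = (List.replicate n l).flatten := by
  rw [List.flatMap_def, List.map_const', List.length_range]

theorem stmt_STR (hR : Stmt_REL) : Stmt_STR := by
  classical
  intro K _ bl phi halt bad cX cY cW
  let f := stepH bl phi halt
  let H := Hbad bad
  have hR' : ∀ x0 : List K, (Lw (W0 (K := K))).IsRegular ∧
      (eqLang (gl f H x0) (Lw W0)).IsRegular ∧
      ∀ b, (b ≠ some .d ∨ W0 x0) → (mulLang (gl f H x0) (Lw W0) b).IsRegular := fun x0 =>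
    hR K bl phi halt bad x0 W0 (by
      have : {x : List K | W0 x} = ∅ := by ext x; exact Iff.rfl
      rw [this]
      exact Set.finite_empty) (fun _ _ _ => Iff.rfl) (fun _ _ h => h)
  obtain ⟨hL, hE, hM⟩ := hR' []
  let B := Option (Lt K)
  let N := Fintype.card B
  let e : B ≃ Fin N := Fintype.equivFin B
  let num : B → ℕ := fun b => (e b).val
  have hnum : ∀ b, num b < N := fun b => (e b).isLt
  have hinj : Function.Injective num := fun b b' h => e.injective (Fin.ext h)
  have hsurj : ∀ a < N, ∃ b, num b = a := fun a ha => ⟨e.symm ⟨a, ha⟩, by simp [num]⟩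
  obtain ⟨A1, hA1⟩ := aut1_of_regular num hL
  obtain ⟨Ae, hAe⟩ := aut2_of_regular num hE (by
    rintro w ⟨u, _, v, _, _, rfl⟩
    exact ⟨u, v, rfl⟩)
  have hMb : ∀ b : B, ∃ M : Aut2, b ≠ some .d → ∀ u v, Acc2 M u v ↔
      ∃ u' v', pad u' v' ∈ mulLang (gl f H []) (Lw W0) b ∧ u = u'.map num ∧ v = v'.map num := by
    intro b
    by_cases hb : b ≠ some .d
    · obtain ⟨M, hM'⟩ := aut2_of_regular num (hM b (Or.inl hb)) (by
        rintro w ⟨u, _, v, _, _, rfl⟩
        exact ⟨u, v, rfl⟩)
      exact ⟨M, fun _ => hM'⟩
    · exact ⟨([], [], []), fun h => absurd h hb⟩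
  choose Mb hMb using hMb
  obtain ⟨Md, hMd⟩ := aut2_of_regular num (D0_regular (K := K) hL) (by
    rintro w (⟨a, l, rfl⟩ | ⟨y, _, rfl⟩)
    · exact ⟨_, _, rfl⟩
    · exact ⟨_, _, rfl⟩)
  let cst : ℕ → Aut2 := fun a => if h : a < N then Mb (e.symm ⟨a, h⟩) else ([], [], [])
  have hcst : ∀ b, cst (num b) = Mb b := by
    intro b
    have h1 := hnum b
    simp only [cst, dif_pos h1]
    congr 1
    simp [num]
  let d0 : ℕ := num (some .d)
  let φ : K → ℕ := fun a => num (some (.s a))
  let bw : ℕ → List ℕ := fun n => num none :: ((start cX cY cW n).map φ ++ [num (some .q)])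
  let MD : ℕ → Aut2 := fun n => un Md [num none] (bw n) [num (some .i)]
    [num (some .h), num (some .h)]
  let I : ℕ → Input := fun n => (N, A1, Ae, (List.range d0).map cst ++
    MD n :: (List.range (N - d0 - 1)).map fun j => cst (d0 + 1 + j))
  refine ⟨I, ?_, ?_⟩
  · -- computability
    have hbw : Primrec bw := by
      have e1 : bw = fun n => num none :: ((φ cX :: φ cY :: (List.range n).flatMap
          (fun _ => [φ cW, φ cY])) ++ [num (some .q)]) := by
        funext n
        show num none :: ((start cX cY cW n).map φ ++ [num (some .q)]) = _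
        rw [flatMap_range_const]
        unfold start
        rw [List.map_cons, List.map_cons, List.map_flatten, List.map_replicate]
        rfl
      rw [e1]
      refine Primrec.list_cons.comp (Primrec.const _) (Primrec.list_append.comp
        (Primrec.list_cons.comp (Primrec.const _) (Primrec.list_cons.comp (Primrec.const _) ?_))
        (Primrec.const _))
      exact Primrec.list_flatMap Primrec.list_range (Primrec.const _).to₂
    have hMD : Primrec MD := by
      refine Primrec.pair (Primrec.const _) (Primrec.pair (Primrec.const _)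
        (Primrec.list_cons.comp (Primrec.pair (Primrec.const _)
          (Primrec.pair (Primrec.pair (Primrec.const _) hbw) (Primrec.const _)))
          (Primrec.const _)))
    exact (Primrec.pair (Primrec.const _) (Primrec.pair (Primrec.const _) (Primrec.pair
      (Primrec.const _) (Primrec.list_append.comp (Primrec.const _)
        (Primrec.list_cons.comp hMD (Primrec.const _)))))).to_comp
  · intro n
    let x0 := start cX cY cW n
    let g : ℕ → Sg f H x0 := fun a => if h : a < N then gl f H x0 (e.symm ⟨a, h⟩) else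
      gl f H x0 none
    have hg : ∀ b, g (num b) = gl f H x0 b := by
      intro b
      have h1 := hnum b
      simp only [g, dif_pos h1]
      congr 1
      simp [num]
    have hval : ∀ (u : List B) (s : Sg f H x0), Val g (u.map num) s ↔ Val (gl f H x0) u s :=
      fun u s => val_num num g (gl f H x0) hg u s
    have hrel : ∀ (b : B) (u v : List ℕ),
        (∃ u' v', pad u' v' ∈ mulLang (gl f H x0) (Lw W0) b ∧ u = u'.map num ∧ v = v'.map num) ↔
          Acc1 A1 u ∧ Acc1 A1 v ∧ ∃ s, Val g u s ∧ Val g v (s * g (num b)) := by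
      intro b u v
      rw [hA1, hA1, hg]
      constructor
      · rintro ⟨u', v', ⟨u1, hu1, v1, hv1, ⟨s, h1, h2⟩, e⟩, rfl, rfl⟩
        obtain ⟨rfl, rfl⟩ := pad_inj e
        exact ⟨⟨u', hu1, rfl⟩, ⟨v', hv1, rfl⟩, s, (hval _ _).2 h1, (hval _ _).2 h2⟩
      · rintro ⟨⟨u', hu, rfl⟩, ⟨v', hv, rfl⟩, s, h1, h2⟩
        exact ⟨u', v', ⟨u', hu, v', hv, ⟨s, (hval _ _).1 h1, (hval _ _).1 h2⟩, rfl⟩, rfl, rfl⟩
    refine ⟨g, ?_, ?_, ?_, ?_, ?_, ?_⟩
    · intro a ha b hb h
      obtain ⟨a', rfl⟩ := hsurj a ha
      obtain ⟨b', rfl⟩ := hsurj b hb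
      rw [hg, hg] at h
      rw [gl_injective _ _ _ h]
    · intro w hw
      obtain ⟨u, ⟨s, rfl⟩, rfl⟩ := (hA1 w).1 hw
      constructor
      · intro h
        exact val_ne (val_nf f H x0 W0 s) (List.map_eq_nil_iff.1 h)
      · intro a ha
        obtain ⟨b, _, rfl⟩ := List.mem_map.1 ha
        exact hnum b
    · intro s
      exact ⟨(nf W0 s).map num, (hA1 _).2 ⟨_, ⟨s, rfl⟩, rfl⟩, (hval _ _).2 (val_nf f H x0 W0 s)⟩
    · intro u v
      show Acc2 Ae u v ↔ Acc1 A1 u ∧ Acc1 A1 v ∧ _
      rw [hAe, hA1, hA1, eqLang_indep f H [] x0]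
      constructor
      · rintro ⟨u', v', ⟨u1, hu1, v1, hv1, ⟨s, h1, h2⟩, e⟩, rfl, rfl⟩
        obtain ⟨rfl, rfl⟩ := pad_inj e
        exact ⟨⟨u', hu1, rfl⟩, ⟨v', hv1, rfl⟩, s, (hval _ _).2 h1, (hval _ _).2 h2⟩
      · rintro ⟨⟨u', hu, rfl⟩, ⟨v', hv, rfl⟩, s, h1, h2⟩
        exact ⟨u', v', ⟨u', hu, v', hv, ⟨s, (hval _ _).1 h1, (hval _ _).1 h2⟩, rfl⟩, rfl, rfl⟩
    · show ((List.range d0).map cst ++
        MD n :: (List.range (N - d0 - 1)).map fun j => cst (d0 + 1 + j)).length = N
      have := hnum (some .d)
      simp only [List.length_append, List.length_map, List.length_range, List.length_cons]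
      show d0 + (N - d0 - 1 + 1) = N
      have h2 : d0 < N := this
      omega
    · intro a ha u v
      obtain ⟨b, rfl⟩ := hsurj a ha
      show Acc2 (((List.range d0).map cst ++
        MD n :: (List.range (N - d0 - 1)).map fun j => cst (d0 + 1 + j)).getD (num b)
          ([], [], [])) u v ↔ Acc1 A1 u ∧ Acc1 A1 v ∧ _
      rw [← hrel b u v]
      by_cases hb : b = some .d
      · subst hb
        have e1 : ((List.range d0).map cst ++
            MD n :: (List.range (N - d0 - 1)).map fun j => cst (d0 + 1 + j)).getD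
              (num (some .d)) ([], [], []) = MD n := by
          show ((List.range d0).map cst ++ _).getD d0 _ = MD n
          simp [List.getD_eq_getElem?_getD, List.getElem?_append]
        rw [e1]
        show Acc2 (un Md _ _ _ _) u v ↔ _
        rw [acc_un, hMd]
        constructor
        · rintro (⟨u', v', h, rfl, rfl⟩ | ⟨k, rfl, rfl⟩)
          · exact ⟨u', v', (mulLang_d f H x0 u' v').2 (Or.inl h), rfl, rfl⟩
          · refine ⟨_, _, (mulLang_d f H x0 _ _).2 (Or.inr ⟨k, rfl, rfl⟩), ?_, ?_⟩
            · rw [flatten_replicate_single]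
              simp
            · rw [flatten_replicate_two]
              simp [bw, φ, x0, Function.comp_def]
        · rintro ⟨u', v', h, rfl, rfl⟩
          rcases (mulLang_d f H x0 u' v').1 h with h | ⟨k, rfl, rfl⟩
          · exact Or.inl ⟨u', v', h, rfl, rfl⟩
          · right
            refine ⟨k, ?_, ?_⟩
            · rw [flatten_replicate_single]
              simp
            · rw [flatten_replicate_two]
              simp [bw, φ, x0, Function.comp_def]
      · have hne : num b ≠ d0 := fun h => hb (hinj h)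
        have e1 : ((List.range d0).map cst ++
            MD n :: (List.range (N - d0 - 1)).map fun j => cst (d0 + 1 + j)).getD
              (num b) ([], [], []) = Mb b := by
          rw [← hcst b]
          have h1 : num b < N := hnum b
          have h2 : d0 < N := hnum (some .d)
          rcases lt_or_gt_of_ne hne with h | h
          · rw [List.getD_append _ _ _ _ (by simpa using h)]
            simp [List.getD_eq_getElem?_getD, h]
          · rw [List.getD_append_right _ _ _ _ (by simpa using h.le)]
            rw [List.length_map, List.length_range]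
            obtain ⟨m, hm⟩ : ∃ m, num b - d0 = m + 1 := ⟨num b - d0 - 1, by omega⟩
            rw [hm, List.getD_cons_succ]
            have h3 : m < N - d0 - 1 := by omega
            simp [List.getD_eq_getElem?_getD, h3]
            congr 1
            omega
        rw [e1, hMb b hb, mulLang_indep f H [] x0 W0 b hb]

end Pool.Agent.Work.MP_567c26_al.V2
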