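import Pool.Agent.Work.MP_567c26_al.V2.Bad
import Pool.Agent.Work.MP_567c26_al.V2.Good
import Pool.Agent.Work.MP_567c26_al.V2.Str
import Pool.Agent.Work.MP_567c26_al_helper68.T1
import Pool.Agent.Work.MP_567c26_al_helper68.Rel2

/-!
# The undecidability theorem
-/

namespace Pool.Agent.Work.MP_567c26_al.V2

open MP_567c26_al_helper68

theorem not_decidable1 : ¬ Decidable1 :=
  assembly stmt_T1 stmt_BAD (stmt_GOOD stmt_REL) (stmt_STR stmt_REL)

end Pool.Agent.Work.MP_567c26_al.V2
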