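import Pool.Agent.Work.MP_567c26_al.Defs

/-!
# Regular languages: closure properties and sequential functions
-/

set_option linter.unusedVariables false
set_option linter.style.haveILetI false

namespace Pool.Agent.Work.MP_567c26_al.V2

open Language

section
variable {α β : Type}

/-- A finite family of languages closed under left quotients by letters. -/
theorem regular_of_family {ι : Type} [Finite ι] (L : ι → Language α) (st : ι → α → ι)
    (h : ∀ i a w, a :: w ∈ L i ↔ w ∈ L (st i a)) (i : ι) : (L i).IsRegular := by
  haveI := Fintype.ofFinite ι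
  refine ⟨ι, inferInstance, ⟨st, i, {j | [] ∈ L j}⟩, ?_⟩
  have key : ∀ (w : List α) (i : ι), w.foldl st i ∈ {j | [] ∈ L j} ↔ w ∈ L i := by
    intro w
    induction w with
    | nil => intro i; rfl
    | cons a w ih =>
      intro i
      rw [List.foldl_cons, ih, h]
  ext w
  exact key w i

theorem exists_dfa {L : Language α} (h : L.IsRegular) :
    ∃ (ι : Type) (_ : Finite ι) (st : ι → α → ι) (i : ι) (acc : Set ι),
      ∀ w, w ∈ L ↔ w.foldl st i ∈ acc := by
  obtain ⟨σ, _, M, rfl⟩ := h
  exact ⟨σ, inferInstance, M.step, M.start, M.accept, fun w => Iff.rfl⟩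

theorem reg_congr {L L' : Language α} (h : L.IsRegular) (e : ∀ w, w ∈ L ↔ w ∈ L') :
    L'.IsRegular := by
  have : L = L' := by ext w; exact e w
  rwa [← this]

theorem reg_empty : Language.IsRegular ({w | False} : Language α) :=
  regular_of_family (ι := Unit) (fun _ => {w | False}) (fun _ _ => ()) (fun _ _ _ => Iff.rfl) ()

/-- All letters satisfy `P`. -/
theorem reg_all (P : α → Prop) : Language.IsRegular ({w | ∀ a ∈ w, P a} : Language α) := by
  classical
  refine reg_congr (regular_of_family (ι := Bool)
    (fun i => {w | i = true ∧ ∀ a ∈ w, P a}) (fun i a => i && decide (P a)) ?_ true) ?_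
  · intro i a w
    constructor
    · rintro ⟨rfl, h⟩
      exact ⟨by simpa using h a (by simp), fun b hb => h b (List.mem_cons_of_mem _ hb)⟩
    · rintro ⟨h1, h2⟩
      have h3 : i = true ∧ P a := by simpa using h1
      refine ⟨h3.1, fun b hb => ?_⟩
      rcases List.mem_cons.1 hb with rfl | hb
      · exact h3.2
      · exact h2 b hb
  · intro w
    exact ⟨fun h => h.2, fun h => ⟨rfl, h⟩⟩

/-- Some letter satisfies `P`. -/
theorem reg_ex (P : α → Prop) : Language.IsRegular ({w | ∃ a ∈ w, P a} : Language α) := by
  refine reg_congr (reg_all fun a => ¬ P a).compl ?_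
  intro w
  show ¬ (∀ a ∈ w, ¬ P a) ↔ _
  push Not
  rfl

theorem reg_one : Language.IsRegular ({w | w = []} : Language α) := by
  refine reg_congr (reg_all fun _ => False) ?_
  intro w
  constructor
  · intro h
    cases w with
    | nil => rfl
    | cons a w => exact (h a (by simp)).elim
  · rintro rfl a ha
    simp at ha

/-- Adding a first letter. -/
theorem reg_cons (a : α) {L : Language α} (h : L.IsRegular) :
    Language.IsRegular ({w | ∃ v ∈ L, w = a :: v} : Language α) := by
  classical
  obtain ⟨ι, _, st, i0, acc, hL⟩ := exists_dfa h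
  refine reg_congr (regular_of_family (ι := Option (Option ι))
    (fun o => match o with
      | none => {w | ∃ v ∈ L, w = a :: v}
      | some none => {w | False}
      | some (some i) => {w | w.foldl st i ∈ acc})
    (fun o b => match o with
      | none => if b = a then some (some i0) else some none
      | some none => some none
      | some (some i) => some (some (st i b))) ?_ none) ?_
  · intro o b w
    match o with
    | none =>
      by_cases hb : b = a
      · subst hb
        simp only [if_true]
        show (∃ v ∈ L, b :: w = b :: v) ↔ w.foldl st i0 ∈ acc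
        rw [← hL]
        constructor
        · rintro ⟨v, hv, e⟩
          injection e with _ e
          rwa [e]
        · intro hw
          exact ⟨w, hw, rfl⟩
      · simp only [if_neg hb]
        show (∃ v ∈ L, b :: w = a :: v) ↔ False
        constructor
        · rintro ⟨v, hv, e⟩
          injection e with e _
          exact hb e
        · exact False.elim
    | some none => exact Iff.rfl
    | some (some i) => exact Iff.rfl
  · intro w; exact Iff.rfl

theorem reg_single (v : List α) : Language.IsRegular ({w | w = v} : Language α) := by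
  induction v with
  | nil => exact reg_one
  | cons a v ih =>
    refine reg_congr (reg_cons a ih) ?_
    intro w
    constructor
    · rintro ⟨u, hu, rfl⟩
      show a :: u = a :: v
      rw [show u = v from hu]
    · rintro rfl
      exact ⟨v, rfl, rfl⟩

theorem reg_or {P Q : List α → Prop} (h1 : Language.IsRegular ({w | P w} : Language α))
    (h2 : Language.IsRegular ({w | Q w} : Language α)) :
    Language.IsRegular ({w | P w ∨ Q w} : Language α) :=
  reg_congr (h1.add h2) fun w => Iff.rfl

theorem reg_and {P Q : List α → Prop} (h1 : Language.IsRegular ({w | P w} : Language α))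
    (h2 : Language.IsRegular ({w | Q w} : Language α)) :
    Language.IsRegular ({w | P w ∧ Q w} : Language α) :=
  reg_congr (h1.inf h2) fun w => Iff.rfl

theorem reg_not {P : List α → Prop} (h1 : Language.IsRegular ({w | P w} : Language α)) :
    Language.IsRegular ({w | ¬ P w} : Language α) :=
  reg_congr h1.compl fun w => Iff.rfl

/-- Finite unions. -/
theorem reg_biUnion {ι : Type} {s : Set ι} (hs : s.Finite) (P : ι → List α → Prop)
    (h : ∀ i ∈ s, Language.IsRegular ({w | P i w} : Language α)) :
    Language.IsRegular ({w | ∃ i ∈ s, P i w} : Language α) := by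
  induction s, hs using Set.Finite.induction_on with
  | empty => exact reg_congr reg_empty fun w => by simp
  | @insert a s ha hs ih =>
    refine reg_congr (reg_or (h a (Set.mem_insert _ _))
      (ih fun i hi => h i (Set.mem_insert_of_mem _ hi))) fun w => ?_
    constructor
    · rintro (h' | ⟨i, hi, h'⟩)
      · exact ⟨a, Set.mem_insert _ _, h'⟩
      · exact ⟨i, Set.mem_insert_of_mem _ hi, h'⟩
    · rintro ⟨i, hi, h'⟩
      rcases hi with e | hi
      · exact Or.inl (e ▸ h')
      · exact Or.inr ⟨i, hi, h'⟩

theorem reg_iUnion {ι : Type} [Finite ι] (P : ι → List α → Prop)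
    (h : ∀ i, Language.IsRegular ({w | P i w} : Language α)) :
    Language.IsRegular ({w | ∃ i, P i w} : Language α) :=
  reg_congr (reg_biUnion (Set.finite_univ (α := ι)) P fun i _ => h i) fun w => by simp

/-- Finite languages. -/
theorem reg_finite {s : Set (List α)} (hs : s.Finite) :
    Language.IsRegular ({w | w ∈ s} : Language α) :=
  reg_congr (reg_biUnion hs (fun i w => w = i) fun i _ => reg_single i) fun w => by
    constructor
    · rintro ⟨i, hi, rfl⟩
      exact hi
    · intro h
      exact ⟨w, h, rfl⟩

/-- Products. -/
theorem reg_mul {L₁ L₂ : Language α} (h1 : L₁.IsRegular) (h2 : L₂.IsRegular) :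
    Language.IsRegular ({w | ∃ u ∈ L₁, ∃ v ∈ L₂, w = u ++ v} : Language α) := by
  classical
  obtain ⟨ι, _, st, i0, acc, hL1⟩ := exists_dfa h1
  obtain ⟨κ, _, st', j0, acc', hL2⟩ := exists_dfa h2
  refine reg_congr (regular_of_family (ι := ι × Set κ)
    (fun o => {w | (∃ u v, w = u ++ v ∧ u.foldl st o.1 ∈ acc ∧ v ∈ L₂) ∨
      ∃ j ∈ o.2, w.foldl st' j ∈ acc'})
    (fun o b => (st o.1 b, {j' | (∃ j ∈ o.2, j' = st' j b) ∨ (o.1 ∈ acc ∧ j' = st' j0 b)}))
    ?_ (i0, ∅)) ?_
  · rintro ⟨i, Q⟩ b w
    constructor
    · rintro (⟨u, v, e, hu, hv⟩ | ⟨j, hj, hw⟩)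
      · cases u with
        | nil =>
          right
          have e' : b :: w = v := e
          subst e'
          exact ⟨_, Or.inr ⟨hu, rfl⟩, (hL2 _).1 hv⟩
        | cons a u =>
          left
          injection e with e1 e2
          subst e1
          exact ⟨u, v, e2, hu, hv⟩
      · exact Or.inr ⟨_, Or.inl ⟨j, hj, rfl⟩, hw⟩
    · rintro (⟨u, v, e, hu, hv⟩ | ⟨j', (⟨j, hj, rfl⟩ | ⟨hi, rfl⟩), hw⟩)
      · exact Or.inl ⟨b :: u, v, by rw [e]; rfl, hu, hv⟩
      · exact Or.inr ⟨j, hj, hw⟩
      · exact Or.inl ⟨[], b :: w, rfl, hi, (hL2 _).2 hw⟩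
  · intro w
    constructor
    · rintro (⟨u, v, e, hu, hv⟩ | ⟨j, hj, _⟩)
      · exact ⟨u, (hL1 u).2 hu, v, hv, e⟩
      · exact hj.elim
    · rintro ⟨u, hu, v, hv, e⟩
      exact Or.inl ⟨u, v, e, (hL1 u).1 hu, hv⟩

/-- Direct images under letter-to-letter maps. -/
theorem reg_map (φ : α → β) {L : Language α} (h : L.IsRegular) :
    Language.IsRegular ({w | ∃ v ∈ L, v.map φ = w} : Language β) := by
  classical
  obtain ⟨ι, _, st, i0, acc, hL⟩ := exists_dfa h
  refine reg_congr (regular_of_family (ι := Set ι)
    (fun Q => {w | ∃ i ∈ Q, ∃ v : List α, v.foldl st i ∈ acc ∧ v.map φ = w})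
    (fun Q b => {i' | ∃ i ∈ Q, ∃ a, φ a = b ∧ i' = st i a}) ?_ {i0}) ?_
  · intro Q b w
    constructor
    · rintro ⟨i, hi, v, hv, e⟩
      cases v with
      | nil => exact absurd e (by simp)
      | cons a v =>
        injection e with e1 e2
        exact ⟨st i a, ⟨i, hi, a, e1, rfl⟩, v, hv, e2⟩
    · rintro ⟨i', ⟨i, hi, a, e1, rfl⟩, v, hv, e2⟩
      exact ⟨i, hi, a :: v, hv, by rw [List.map_cons, e1, e2]⟩
  · intro w
    constructor
    · rintro ⟨i, rfl, v, hv, e⟩
      exact ⟨v, (hL v).2 hv, e⟩
    · rintro ⟨v, hv, e⟩
      exact ⟨i0, rfl, v, (hL v).1 hv, e⟩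

/-- Inverse images under letter-to-letter maps. -/
theorem reg_comap (φ : α → β) {L : Language β} (h : L.IsRegular) :
    Language.IsRegular ({w | w.map φ ∈ L} : Language α) := by
  obtain ⟨ι, _, st, i0, acc, hL⟩ := exists_dfa h
  refine reg_congr (regular_of_family (ι := ι)
    (fun i => {w | (w.map φ).foldl st i ∈ acc}) (fun i b => st i (φ b)) ?_ i0) ?_
  · intro i b w
    exact Iff.rfl
  · intro w
    exact (hL _).symm

/-- `a^k`. -/
theorem reg_rep (a : α) : Language.IsRegular ({w | ∃ k, w = List.replicate k a} : Language α) := by
  refine reg_congr (reg_all fun b => b = a) fun w => ?_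
  constructor
  · intro h
    exact ⟨w.length, List.eq_replicate_iff.2 ⟨rfl, h⟩⟩
  · rintro ⟨k, rfl⟩ b hb
    exact (List.mem_replicate.1 hb).2

end

/-! ## Padding -/

section
variable {A : Type}

theorem pad_nil_nil : pad ([] : List A) [] = [] := rfl

theorem pad_cons_cons (a b : A) (u v : List A) :
    pad (a :: u) (b :: v) = (some a, some b) :: pad u v := by
  unfold pad
  rw [List.length_cons, List.length_cons, Nat.succ_max_succ, List.range_succ_eq_map,
    List.map_cons, List.map_map]
  rfl

theorem pad_nil_cons (b : A) (v : List A) :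
    pad [] (b :: v) = (none, some b) :: pad [] v := by
  unfold pad
  simp only [List.length_cons, List.length_nil, Nat.zero_max]
  rw [List.range_succ_eq_map, List.map_cons, List.map_map]
  simp

theorem pad_cons_nil (a : A) (u : List A) :
    pad (a :: u) [] = (some a, none) :: pad u [] := by
  unfold pad
  simp only [List.length_cons, List.length_nil, Nat.max_zero]
  rw [List.range_succ_eq_map, List.map_cons, List.map_map]
  simp

theorem pad_nil_left (v : List A) : pad [] v = v.map fun b => (none, some b) := by
  induction v with
  | nil => rfl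
  | cons b v ih => rw [pad_nil_cons, ih]; rfl

theorem pad_nil_right (u : List A) : pad u [] = u.map fun a => (some a, none) := by
  induction u with
  | nil => rfl
  | cons b v ih => rw [pad_cons_nil, ih]; rfl

/-- The first word of a padded word. -/
def fstW (w : List (Option A × Option A)) : List A := w.filterMap Prod.fst

/-- The second word of a padded word. -/
def sndW (w : List (Option A × Option A)) : List A := w.filterMap Prod.snd

theorem fstW_pad (u v : List A) : fstW (pad u v) = u := by
  induction u generalizing v with
  | nil =>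
    rw [pad_nil_left]
    induction v with
    | nil => rfl
    | cons b v ih => exact ih
  | cons a u ih =>
    cases v with
    | nil => rw [pad_cons_nil]; exact congrArg (a :: ·) (ih [])
    | cons b v => rw [pad_cons_cons]; exact congrArg (a :: ·) (ih v)

theorem sndW_pad (u v : List A) : sndW (pad u v) = v := by
  induction u generalizing v with
  | nil =>
    rw [pad_nil_left]
    induction v with
    | nil => rfl
    | cons b v ih => exact congrArg (b :: ·) ih
  | cons a u ih =>
    cases v with
    | nil => rw [pad_cons_nil]; exact ih []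
    | cons b v => rw [pad_cons_cons]; exact congrArg (b :: ·) (ih v)

theorem pad_inj {u v u' v' : List A} (h : pad u v = pad u' v') : u = u' ∧ v = v' := by
  constructor
  · rw [← fstW_pad u v, h, fstW_pad]
  · rw [← sndW_pad u v, h, sndW_pad]

theorem pad_append {u v : List A} (h : u.length = v.length) (x y : List A) :
    pad (u ++ x) (v ++ y) = pad u v ++ pad x y := by
  induction u generalizing v with
  | nil =>
    cases v with
    | nil => rfl
    | cons b v => simp at h
  | cons a u ih =>
    cases v with
    | nil => simp at h
    | cons b v =>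
      rw [List.cons_append, List.cons_append, pad_cons_cons, pad_cons_cons, ih (by simpa using h)]
      rfl

theorem pad_replicate (k : ℕ) (a b : A) :
    pad (List.replicate k a) (List.replicate k b) = List.replicate k (some a, some b) := by
  induction k with
  | zero => rfl
  | succ k ih => rw [List.replicate_succ, List.replicate_succ, pad_cons_cons, ih]; rfl

/-! ## Sequential functions -/

/-- The padded word produced by a sequential letter-to-letter machine with a final word. -/
def run {B σ : Type} (δ : σ → B → σ) (out : σ → B → Option B) (fin : σ → List B) :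
    σ → List B → List (Option B × Option B)
  | s, [] => (fin s).map fun b => (none, some b)
  | s, b :: u => (some b, out s b) :: run δ out fin (δ s b) u

theorem reg_run {B σ : Type} [Finite σ] (δ : σ → B → σ) (out : σ → B → Option B)
    (fin : σ → List B) (s0 : σ) {K : Language B} (hK : K.IsRegular) :
    Language.IsRegular ({w | ∃ u ∈ K, w = run δ out fin s0 u} : Language (Option B × Option B)) := by
  classical
  obtain ⟨ι, _, st, i0, acc, hL⟩ := exists_dfa hK
  -- the first part
  let run0 : σ → List B → List (Option B × Option B) := fun s u =>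
    run δ out (fun _ => []) s u
  have h1 : ∀ s', Language.IsRegular
      ({w | ∃ u ∈ K, w = run0 s0 u ∧ u.foldl δ s0 = s'} : Language (Option B × Option B)) := by
    intro s'
    refine reg_congr (regular_of_family (ι := Option (σ × ι))
      (fun o => {w | ∃ p, o = some p ∧ ∃ u : List B, u.foldl st p.2 ∈ acc ∧ w = run0 p.1 u ∧
        u.foldl δ p.1 = s'})
      (fun o x => match o, x with
        | some p, (some b, y) => if y = out p.1 b then some (δ p.1 b, st p.2 b) else none
        | _, _ => none) ?_ (some (s0, i0))) ?_
    · intro o x w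
      constructor
      · rintro ⟨p, rfl, u, hu, hw, hs⟩
        cases u with
        | nil => cases hw
        | cons b u =>
          injection hw with h1 h2
          subst h1
          refine ⟨(δ p.1 b, st p.2 b), ?_, u, hu, h2, hs⟩
          simp
      · rintro ⟨p', e, u, hu, hw, hs⟩
        match o, x with
        | none, x => simp at e
        | some p, (none, y) => simp at e
        | some p, (some b, y) =>
          by_cases hy : y = out p.1 b
          · simp only [if_pos hy, Option.some.injEq] at e
            subst e
            refine ⟨p, rfl, b :: u, hu, ?_, hs⟩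
            rw [hw, hy]
            rfl
          · simp [if_neg hy] at e
    · intro w
      constructor
      · rintro ⟨p, e, u, hu, hw, hs⟩
        injection e with e
        subst e
        exact ⟨u, (hL u).2 hu, hw, hs⟩
      · rintro ⟨u, hu, hw, hs⟩
        exact ⟨(s0, i0), rfl, u, (hL u).1 hu, hw, hs⟩
  have h2 : ∀ (u : List B) (s : σ), run δ out fin s u =
      run0 s u ++ (fin (u.foldl δ s)).map fun b => (none, some b) := by
    intro u
    induction u with
    | nil => intro s; rfl
    | cons b u ih =>
      intro s
      show (some b, out s b) :: run δ out fin (δ s b) u = _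
      rw [ih]
      rfl
  refine reg_congr (reg_iUnion (ι := σ) _ fun s' => reg_mul (h1 s')
    (reg_single ((fin s').map fun b => ((none : Option B), some b)))) fun w => ?_
  constructor
  · rintro ⟨s', u, ⟨u', hu', e, hs⟩, v, hv, rfl⟩
    refine ⟨u', hu', ?_⟩
    rw [h2, ← e, hs, show v = _ from hv]
  · rintro ⟨u, hu, rfl⟩
    exact ⟨u.foldl δ s0, run0 s0 u, ⟨u, hu, rfl, rfl⟩, _, rfl, h2 u s0⟩

/-- The version with padding. -/
theorem reg_pad_run {B σ : Type} [Finite σ] (δ : σ → B → σ) (out : σ → B → Option B)
    (fin : σ → List B) (s0 : σ) {K : Language B} (hK : K.IsRegular) (f : List B → List B)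
    (h : ∀ u ∈ K, pad u (f u) = run δ out fin s0 u) :
    Language.IsRegular ({w | ∃ u ∈ K, w = pad u (f u)} : Language (Option B × Option B)) := by
  refine reg_congr (reg_run δ out fin s0 hK) fun w => ?_
  constructor
  · rintro ⟨u, hu, rfl⟩
    exact ⟨u, hu, (h u hu).symm⟩
  · rintro ⟨u, hu, rfl⟩
    exact ⟨u, hu, h u hu⟩

/-- Letter-to-letter map followed by a fixed word. -/
theorem reg_pad_map {B : Type} (φ : B → B) (y : List B) {K : Language B} (hK : K.IsRegular) :
    Language.IsRegular ({w | ∃ u ∈ K, w = pad u (u.map φ ++ y)} :
      Language (Option B × Option B)) := by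
  refine reg_pad_run (σ := Unit) (fun _ _ => ()) (fun _ b => some (φ b)) (fun _ => y) () hK _ ?_
  rintro u -
  induction u with
  | nil => exact pad_nil_left y
  | cons b u ih =>
    rw [List.map_cons, List.cons_append, pad_cons_cons, ih]
    rfl

/-- A fixed word is appended. -/
theorem reg_pad_append {B : Type} (y : List B) {K : Language B} (hK : K.IsRegular) :
    Language.IsRegular ({w | ∃ u ∈ K, w = pad u (u ++ y)} :
      Language (Option B × Option B)) :=
  reg_congr (reg_pad_map id y hK) fun w => by simp only [List.map_id]

/-- The second word is one fixed letter. -/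
theorem reg_pad_const {B : Type} (c : B) {K : Language B} (hK : K.IsRegular) :
    Language.IsRegular ({w | ∃ u ∈ K, w = pad u [c]} : Language (Option B × Option B)) := by
  refine reg_pad_run (σ := Bool) (fun _ _ => true) (fun s _ => if s then none else some c)
    (fun s => if s then [] else [c]) false hK _ ?_
  rintro u -
  cases u with
  | nil => rfl
  | cons b u =>
    rw [pad_cons_cons]
    show _ = (some b, some c) :: _
    congr 1
    induction u with
    | nil => rfl
    | cons a u ih => rw [pad_cons_nil, ih]; rfl

/-- A power of a letter between fixed words, on both sides. -/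
theorem reg_pad_lag {B : Type} (u x v y : List B) (a : B) :
    Language.IsRegular ({w | ∃ k, w = pad (u ++ List.replicate k a ++ x)
      (v ++ List.replicate k a ++ y)} : Language (Option B × Option B)) := by
  have key : ∀ (m : ℕ) (u₁ u₂ v₁ v₂ : List B), u₁.length = v₁.length → ∀ P : ℕ → _ → Prop,
      (∀ k, m ≤ k → ∀ w, P k w ↔ w = pad u₁ v₁ ++ (List.replicate (k - m) (some a, some a) ++
        pad u₂ v₂)) → (∀ k, ∃ w₀, ∀ w, P k w ↔ w = w₀) →
      Language.IsRegular ({w | ∃ k, P k w} : Language (Option B × Option B)) := by
    intro m u₁ u₂ v₁ v₂ _ P h1 h2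
    refine reg_congr (reg_or (reg_mul (reg_single (pad u₁ v₁)) (reg_mul
      (reg_rep ((some a, some a) : Option B × Option B)) (reg_single (pad u₂ v₂))))
      (reg_biUnion (Set.finite_lt_nat m) P fun k _ => ?_)) fun w => ?_
    · obtain ⟨w₀, h0⟩ := h2 k
      exact reg_congr (reg_single w₀) fun w => (h0 w).symm
    · constructor
      · rintro (⟨p, hp, q, ⟨r, ⟨k, rfl⟩, s, hs, rfl⟩, rfl⟩ | ⟨k, _, h⟩)
        · refine ⟨k + m, (h1 (k + m) (Nat.le_add_left _ _) _).2 ?_⟩
          rw [Nat.add_sub_cancel, show p = _ from hp, show s = _ from hs]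
        · exact ⟨k, h⟩
      · rintro ⟨k, h⟩
        by_cases hk : m ≤ k
        · exact Or.inl ⟨_, rfl, _, ⟨_, ⟨k - m, rfl⟩, _, rfl, rfl⟩, (h1 k hk w).1 h⟩
        · exact Or.inr ⟨k, not_le.1 hk, h⟩
  have rep1 : ∀ m k, m ≤ k → List.replicate k a = List.replicate m a ++
      List.replicate (k - m) a := by
    intro m k hk
    rw [← List.replicate_add]
    congr 1
    omega
  have rep2 : ∀ m k, m ≤ k → List.replicate k a = List.replicate (k - m) a ++
      List.replicate m a := by
    intro m k hk
    rw [← List.replicate_add]
    congr 1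
    omega
  rcases le_total u.length v.length with hle | hle
  · obtain ⟨m, hm⟩ := Nat.exists_eq_add_of_le hle
    refine key m (u ++ List.replicate m a) x v (List.replicate m a ++ y) (by simp [hm]) _
      ?_ (fun k => ⟨_, fun w => Iff.rfl⟩)
    intro k hk w
    have e1 : u ++ List.replicate k a ++ x =
        (u ++ List.replicate m a) ++ (List.replicate (k - m) a ++ x) := by
      rw [rep1 m k hk]
      simp only [List.append_assoc]
    have e2 : v ++ List.replicate k a ++ y =
        v ++ (List.replicate (k - m) a ++ (List.replicate m a ++ y)) := by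
      rw [rep2 m k hk]
      simp only [List.append_assoc]
    rw [e1, e2, pad_append (by simp [hm]), pad_append (by simp), pad_replicate]
  · obtain ⟨m, hm⟩ := Nat.exists_eq_add_of_le hle
    refine key m u (List.replicate m a ++ x) (v ++ List.replicate m a) y (by simp [hm]) _
      ?_ (fun k => ⟨_, fun w => Iff.rfl⟩)
    intro k hk w
    have e1 : v ++ List.replicate k a ++ y =
        (v ++ List.replicate m a) ++ (List.replicate (k - m) a ++ y) := by
      rw [rep1 m k hk]
      simp only [List.append_assoc]
    have e2 : u ++ List.replicate k a ++ x =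
        u ++ (List.replicate (k - m) a ++ (List.replicate m a ++ x)) := by
      rw [rep2 m k hk]
      simp only [List.append_assoc]
    rw [e1, e2, pad_append (by simp [hm]), pad_append (by simp), pad_replicate]

end

end Pool.Agent.Work.MP_567c26_al.V2
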