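import Pool.Agent.Work.MP_567c26_al.Defs
import Pool.Agent.Work.MP_567c26_al_helper68.Dyn68

/-!
# The semigroup attached to a partial map on words (second version)

Vertices `P x k`, `M x k` (`x` a word over `K`, `k` a natural number), root `P [] 0`, letters
acting on the right on the vertices; an undefined edge leads to the root. The semigroup consists of
the nonempty words over the letters and of the vertices; every vertex is a right zero.
-/

namespace Pool.Agent.Work.MP_567c26_al.V2

/-- Letters other than the letter `c` (which stands for the root). -/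
inductive Lt (K : Type)
  /-- a letter of the words: from `P x 0` to `P (x a) 0` -/
  | s (a : K)
  /-- from `P x 0` to `M x 0` -/
  | q
  /-- adds `1` on `P` and `2` on `M` -/
  | i
  /-- adds `1` on `M` -/
  | h
  /-- the step: from `M x k` to `M (f x) k` -/
  | t
  /-- forgets the word: from `P x k` to `P [] (|x| + k)` -/
  | g
  /-- from `P x k` to `M x k` if `x` is in `H` -/
  | e
  /-- from `P [] k` to `M x0 (2 k)` -/
  | d
deriving DecidableEq, Fintype

/-- Vertices. -/
inductive Vx (K : Type)
  | P (x : List K) (k : ℕ)
  | M (x : List K) (k : ℕ)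
deriving DecidableEq

/-- The root. -/
def root {K : Type} : Vx K := .P [] 0

section
variable {K : Type} (f : List K → Option (List K)) (H : List K → Prop) (x0 : List K)

open Classical in
/-- The right action of the letters on the vertices. -/
noncomputable def act : Vx K → Lt K → Vx K
  | .P x k, .s a => if k = 0 then .P (x ++ [a]) 0 else root
  | .P x k, .q => if k = 0 then .M x 0 else root
  | .P x k, .i => .P x (k + 1)
  | .P x k, .g => .P [] (x.length + k)
  | .P x k, .e => if H x then .M x k else root
  | .P x k, .d => if x = [] then .M x0 (2 * k) else root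
  | .M x k, .h => .M x (k + 1)
  | .M x k, .i => .M x (k + 2)
  | .M x k, .t => (f x).elim root fun y => .M y k
  | _, _ => root

end

/-- The elements of the semigroup: the nonempty words `a l` without `c`, and the vertices. -/
inductive SgD (K : Type)
  | fr (a : Lt K) (l : List (Lt K))
  | pt (x : Vx K)

/-- The semigroup. -/
def Sg {K : Type} (_f : List K → Option (List K)) (_H : List K → Prop) (_x0 : List K) : Type :=
  SgD K

section
variable {K : Type} (f : List K → Option (List K)) (H : List K → Prop) (x0 : List K)

/-- The multiplication. -/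
noncomputable def smul : SgD K → SgD K → SgD K
  | .fr a l, .fr b m => .fr a (l ++ b :: m)
  | .pt x, .fr b m => .pt ((b :: m).foldl (act f H x0) x)
  | _, .pt x => .pt x

theorem smul_assoc (x y w : SgD K) :
    smul f H x0 (smul f H x0 x y) w = smul f H x0 x (smul f H x0 y w) := by
  cases x <;> cases y <;> cases w <;> simp [smul, List.foldl_append]

noncomputable instance : Semigroup (Sg f H x0) where
  mul := smul f H x0
  mul_assoc := smul_assoc f H x0

/-- The element given by the nonempty word `a l`. -/
def eF (a : Lt K) (l : List (Lt K)) : Sg f H x0 := SgD.fr a l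

/-- The element given by a vertex. -/
def eP (x : Vx K) : Sg f H x0 := SgD.pt x

/-- The generators: `none` is the letter `c`. -/
def gl : Option (Lt K) → Sg f H x0
  | none => eP f H x0 root
  | some a => eF f H x0 a []

theorem Sg.cases (x : Sg f H x0) : (∃ a l, x = eF f H x0 a l) ∨ ∃ y, x = eP f H x0 y := by
  cases x with
  | fr a l => exact Or.inl ⟨a, l, rfl⟩
  | pt y => exact Or.inr ⟨y, rfl⟩

theorem eF_inj {a b : Lt K} {l m : List (Lt K)} (h : eF f H x0 a l = eF f H x0 b m) :
    a = b ∧ l = m := by
  have h' : (SgD.fr a l : SgD K) = SgD.fr b m := h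
  injection h' with h1 h2
  exact ⟨h1, h2⟩

theorem eP_inj {x y : Vx K} (h : eP f H x0 x = eP f H x0 y) : x = y := by
  have h' : (SgD.pt x : SgD K) = SgD.pt y := h
  injection h'

theorem eF_ne_eP {a : Lt K} {l : List (Lt K)} {x : Vx K} :
    eF f H x0 a l ≠ eP f H x0 x :=
  fun h => by
    have h' : (SgD.fr a l : SgD K) = SgD.pt x := h
    cases h'

theorem eF_mul_eF (a b : Lt K) (l m : List (Lt K)) :
    eF f H x0 a l * eF f H x0 b m = eF f H x0 a (l ++ b :: m) := rfl

theorem eP_mul_eF (x : Vx K) (b : Lt K) (m : List (Lt K)) :
    eP f H x0 x * eF f H x0 b m = eP f H x0 ((b :: m).foldl (act f H x0) x) := rfl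

theorem mul_eP (x : Sg f H x0) (y : Vx K) : x * eP f H x0 y = eP f H x0 y := by
  cases x <;> rfl

theorem eF_mul (a b : Lt K) (l : List (Lt K)) :
    eF f H x0 a l * gl f H x0 (some b) = eF f H x0 a (l ++ [b]) := rfl

theorem eP_mul (x : Vx K) (b : Lt K) :
    eP f H x0 x * gl f H x0 (some b) = eP f H x0 (act f H x0 x b) := rfl

theorem mul_c (x : Sg f H x0) : x * gl f H x0 none = eP f H x0 root := mul_eP f H x0 x _

theorem gl_injective : Function.Injective (gl f H x0) := by
  intro a b h
  cases a with
  | none =>
    cases b with
    | none => rfl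
    | some b => exact absurd h.symm (eF_ne_eP f H x0)
  | some a =>
    cases b with
    | none => exact absurd h (eF_ne_eP f H x0)
    | some b => rw [(eF_inj f H x0 h).1]

end

/-! ## Values of words -/

theorem val_unique {A S : Type} [Semigroup S] {g : A → S} {u : List A} {s s' : S}
    (h : Val g u s) (h' : Val g u s') : s = s' := by
  obtain ⟨a, l, rfl, rfl⟩ := h
  obtain ⟨a', l', e, rfl⟩ := h'
  injection e with e1 e2
  subst e1; subst e2; rfl

theorem val_ne {A S : Type} [Semigroup S] {g : A → S} {u : List A} {s : S}
    (h : Val g u s) : u ≠ [] := by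
  obtain ⟨a, l, rfl, rfl⟩ := h
  simp

theorem val_single {A S : Type} [Semigroup S] (g : A → S) (a : A) : Val g [a] (g a) :=
  ⟨a, [], rfl, rfl⟩

theorem exists_val {A S : Type} [Semigroup S] (g : A → S) {u : List A} (h : u ≠ []) :
    ∃ s, Val g u s := by
  cases u with
  | nil => exact absurd rfl h
  | cons a l => exact ⟨_, a, l, rfl, rfl⟩

theorem foldl_mul {A S : Type} [Semigroup S] (g : A → S) (l : List A) (x y : S) :
    l.foldl (fun x b => x * g b) (x * y) = x * l.foldl (fun x b => x * g b) y := by
  induction l generalizing y with
  | nil => rfl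
  | cons a l ih => rw [List.foldl_cons, List.foldl_cons, mul_assoc, ih]

theorem val_append {A S : Type} [Semigroup S] {g : A → S} {u v : List A} {s s' : S}
    (h : Val g u s) (h' : Val g v s') : Val g (u ++ v) (s * s') := by
  obtain ⟨a, l, rfl, rfl⟩ := h
  obtain ⟨a', l', rfl, rfl⟩ := h'
  refine ⟨a, l ++ a' :: l', rfl, ?_⟩
  rw [List.foldl_append, List.foldl_cons, foldl_mul]

theorem val_snoc {A S : Type} [Semigroup S] {g : A → S} {u : List A} {s : S} (a : A)
    (h : Val g u s) : Val g (u ++ [a]) (s * g a) := val_append h (val_single g a)

section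
variable {K : Type} (f : List K → Option (List K)) (H : List K → Prop) (x0 : List K)

/-- The value of a word without `c`. -/
theorem val_fr (a : Lt K) (l : List (Lt K)) :
    Val (gl f H x0) ((a :: l).map some) (eF f H x0 a l) := by
  refine ⟨some a, l.map some, rfl, ?_⟩
  have : ∀ (l m : List (Lt K)), (l.map some).foldl (fun (x : Sg f H x0) b => x * gl f H x0 b)
      (eF f H x0 a m) = eF f H x0 a (m ++ l) := by
    intro l
    induction l with
    | nil => intro m; simp
    | cons b l ih =>
      intro m
      rw [List.map_cons, List.foldl_cons, eF_mul, ih]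
      simp
  exact this l []

theorem foldl_pt (x : Vx K) (l : List (Lt K)) :
    (l.map some).foldl (fun (x : Sg f H x0) b => x * gl f H x0 b) (eP f H x0 x) =
      eP f H x0 (l.foldl (act f H x0) x) := by
  induction l generalizing x with
  | nil => rfl
  | cons b l ih => rw [List.map_cons, List.foldl_cons, eP_mul, ih]; rfl

/-- The value of a word `c l` where `l` has no `c`. -/
theorem val_pt (l : List (Lt K)) :
    Val (gl f H x0) (none :: l.map some) (eP f H x0 (l.foldl (act f H x0) root)) :=
  ⟨none, l.map some, rfl, foldl_pt f H x0 _ l⟩

/-- The value of a word with a letter `c` and no `c` after it. -/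
theorem val_pt' (u : List (Option (Lt K))) (l : List (Lt K)) :
    Val (gl f H x0) (u ++ none :: l.map some) (eP f H x0 (l.foldl (act f H x0) root)) := by
  cases u with
  | nil => exact val_pt f H x0 l
  | cons a u =>
    obtain ⟨s, hs⟩ := exists_val (gl f H x0) (List.cons_ne_nil a u)
    have := val_append hs (val_pt f H x0 l)
    rwa [mul_eP] at this

/-! ## Normal forms -/

open Classical in
/-- The normal form of an element: on the words in `W` the counter of `M` is written with `i` and
at most one `h`, outside `W` it is written with `h` only. -/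
noncomputable def nf (W : List K → Prop) : SgD K → List (Option (Lt K))
  | .fr a l => (a :: l).map some
  | .pt (.P x k) => none :: (x.map Lt.s ++ List.replicate k Lt.i).map some
  | .pt (.M x k) => none :: (x.map Lt.s ++ Lt.q ::
      if W x then List.replicate (k / 2) Lt.i ++ List.replicate (k % 2) Lt.h
      else List.replicate k Lt.h).map some

/-- The language of the normal forms. -/
def Lw (W : List K → Prop) : Language (Option (Lt K)) := Set.range (nf W)

end

/-- Iterates of a partial map. -/
def iter {K : Type} (f : List K → Option (List K)) : ℕ → List K → Option (List K)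
  | 0, D => some D
  | n + 1, D => (iter f n D).bind f

open MP_567c26_al_helper68 in
/-- The partial map of a local rule: no step if there is a halting letter. -/
def stepH {K : Type} (bl : K) (phi : K → K → K → K) (halt : K → Bool) (x : List K) :
    Option (List K) :=
  if ∀ s ∈ x, halt s = false then some (step bl phi x) else none

/-- The words with a bad letter. -/
def Hbad {K : Type} (bad : K → Bool) (x : List K) : Prop := ∃ s ∈ x, bad s = true

end Pool.Agent.Work.MP_567c26_al.V2
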